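import Pool.Agent.H35.DM.Lin
import Pool.Graph.R_seed8.H737R3.Points

/-!
# The inequality for intersections of families of ideals
-/

set_option autoImplicit false

universe u

namespace Pool.Agent.H35.DM

open MvPolynomial Pool.Agent.Chud Pool.Agent.H580C Pool.Agent.H737R3 Filter Topology

variable {K : Type u} [Field K] {n : ℕ}

/-- The ideals `J m` are determined, for forms, by the orders of vanishing at the points of a set
`U`, near which they are contained in the powers of ideals with `h` generators. -/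
def Good (h : ℕ) (J : ℕ → Ideal (MvPolynomial (Fin (n + 1)) K)) : Prop :=
  ∃ U : Set (Fin (n + 1) → K), U.Nonempty ∧ (∀ u ∈ U, u ≠ 0) ∧
    (∀ (m : ℕ) (F : MvPolynomial (Fin (n + 1)) K) (d : ℕ), F.IsHomogeneous d →
      (∀ u ∈ U, F ∈ mI u ^ m) → F ∈ J m) ∧
    (∀ (m : ℕ) (F : MvPolynomial (Fin (n + 1)) K), F ∈ J m → ∀ u ∈ U, Dat h u m F)

/-- finitely many conditions suffice in bounded degree -/
theorem exists_finset_cond {I : Type*} (w : I → (Fin (n + 1) → K)) (t : I → ℕ) (D : ℕ) :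
    ∃ T : Finset I, ∀ F : MvPolynomial (Fin (n + 1)) K, F.totalDegree ≤ D →
      (∀ i ∈ T, F ∈ mI (w i) ^ t i) → ∀ i, F ∈ mI (w i) ^ t i := by
  classical
  let V := restrictTotalDegree (Fin (n + 1)) K D
  let W : Finset I → Submodule K V := fun T =>
    ((⨅ i ∈ T, mI (w i) ^ t i : Ideal (MvPolynomial (Fin (n + 1)) K)).restrictScalars K).comap
      V.subtype
  have hmem : ∀ (T : Finset I) (x : V), x ∈ W T ↔
      ∀ i ∈ T, (x : MvPolynomial (Fin (n + 1)) K) ∈ mI (w i) ^ t i := by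
    intro T x
    change (x : MvPolynomial (Fin (n + 1)) K) ∈ (⨅ i ∈ T, mI (w i) ^ t i : Ideal _) ↔ _
    simp only [Submodule.mem_iInf]
  have hwf : WellFounded ((· < ·) : Submodule K V → Submodule K V → Prop) :=
    (inferInstance : IsWellFounded (Submodule K V) (· < ·)).wf
  obtain ⟨-, ⟨T, rfl⟩, hT⟩ := hwf.has_min (Set.range W) ⟨_, ∅, rfl⟩
  refine ⟨T, fun F hFd hF i => ?_⟩
  have hx : F ∈ V := (mem_restrictTotalDegree _ _ _).2 hFd
  have h1 : W (insert i T) ≤ W T := by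
    intro x hx
    rw [hmem] at hx ⊢
    exact fun q hq => hx q (Finset.mem_insert_of_mem hq)
  have h2 : W (insert i T) = W T := by
    rcases h1.lt_or_eq with h | h
    · exact absurd h (hT _ ⟨_, rfl⟩)
    · exact h
  have h3 : (⟨F, hx⟩ : V) ∈ W T := (hmem _ _).2 fun q hq => hF q hq
  rw [← h2, hmem] at h3
  exact h3 i (Finset.mem_insert_self _ _)

/-- **The main inequality.** -/
theorem main_ineq [IsAlgClosed K] {ι : Type*} (S : Finset ι) (hS : S.Nonempty) {h : ℕ}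
    (hh : 1 ≤ h) (J : ι → ℕ → Ideal (MvPolynomial (Fin (n + 1)) K)) (hJ : ∀ i ∈ S, Good h (J i))
    (τ : ι → ℕ) (hτ : ∀ i ∈ S, 1 ≤ τ i) (r a : ℕ)
    (ha : ∀ (G : MvPolynomial (Fin (n + 1)) K) (g : ℕ), G ≠ 0 → G.IsHomogeneous g →
      (∀ i ∈ S, G ∈ J i (τ i)) → a ≤ g)
    (F : MvPolynomial (Fin (n + 1)) K) (d : ℕ) (hF0 : F ≠ 0) (hF : F.IsHomogeneous d)
    (hFJ : ∀ i ∈ S, F ∈ J i (r * (τ i + h - 1))) : r * (a + h - 1) ≤ d := by
  classical
  choose! U hUne hU0 hU1 hU2 using hJ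
  let I := {x : ι × (Fin (n + 1) → K) // x.1 ∈ S ∧ x.2 ∈ U x.1}
  obtain ⟨T, hT⟩ := exists_finset_cond (fun x : I => x.1.2) (fun x : I => τ x.1.1) a
  obtain ⟨i₀, hi₀⟩ := hS
  obtain ⟨u₀, hu₀⟩ := hUne i₀ hi₀
  let x₀ : I := ⟨(i₀, u₀), hi₀, hu₀⟩
  let T' : Finset I := insert x₀ T
  let τ' : (Fin (n + 1) → K) → ℕ := fun u =>
    (T'.filter (fun x => x.1.2 = u)).sup (fun x => τ x.1.1)
  have hτ' : ∀ x ∈ T', τ x.1.1 ≤ τ' x.1.2 := by
    intro x hx
    exact Finset.le_sup (f := fun x : I => τ x.1.1) (Finset.mem_filter.2 ⟨hx, rfl⟩)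
  refine main_finite K n h a r d (T'.image (fun x => x.1.2) : Finset (Fin (n + 1) → K)) τ' F hh
    (Finset.finite_toSet _) ?_ ?_ ?_ hF0 hF ?_
  · exact ⟨u₀, Finset.mem_coe.2 (Finset.mem_image.2 ⟨x₀, Finset.mem_insert_self _ _, rfl⟩),
      (hτ i₀ hi₀).trans (hτ' x₀ (Finset.mem_insert_self _ _))⟩
  · intro v hv
    obtain ⟨x, -, rfl⟩ := Finset.mem_image.1 (Finset.mem_coe.1 hv)
    exact hU0 x.1.1 x.2.1 _ x.2.2
  · intro G g hG0 hG hGv
    by_contra hcon
    push Not at hcon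
    have h1 : ∀ x : I, G ∈ mI x.1.2 ^ τ x.1.1 := by
      apply hT G
      · rw [hG.totalDegree hG0]
        omega
      · intro x hx
        have hx' : x ∈ T' := Finset.mem_insert_of_mem hx
        exact Ideal.pow_le_pow_right (hτ' x hx')
          (hGv x.1.2 (Finset.mem_coe.2 (Finset.mem_image.2 ⟨x, hx', rfl⟩)))
    have h2 := ha G g hG0 hG (fun i hi => hU1 i hi (τ i) G g hG
      (fun u hu => h1 ⟨(i, u), hi, hu⟩))
    omega
  · intro v hv hτv
    obtain ⟨y, hy, rfl⟩ := Finset.mem_image.1 (Finset.mem_coe.1 hv)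
    have hne : (T'.filter (fun x => x.1.2 = y.1.2)).Nonempty :=
      ⟨y, Finset.mem_filter.2 ⟨hy, rfl⟩⟩
    obtain ⟨x, hx, hxw⟩ := Finset.exists_mem_eq_sup _ hne (fun x => τ x.1.1)
    rw [Finset.mem_filter] at hx
    have e1 : τ' y.1.2 = τ x.1.1 := hxw
    rw [e1, ← hx.2]
    exact hU2 x.1.1 x.2.1 _ F (hFJ x.1.1 x.2.1) _ x.2.2

/-! ### initial degrees -/

/-- `α(J)`: the least degree of a nonzero element of `J`. -/
noncomputable def alpha (J : Ideal (MvPolynomial (Fin (n + 1)) K)) : ℕ :=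
  sInf {d | ∃ F ∈ J, F ≠ 0 ∧ F.totalDegree = d}

/-- the ideal contains the homogeneous components of its elements -/
def Hom (J : Ideal (MvPolynomial (Fin (n + 1)) K)) : Prop :=
  ∀ F ∈ J, ∀ d, homogeneousComponent d F ∈ J

theorem alpha_spec {J : Ideal (MvPolynomial (Fin (n + 1)) K)} (hJ : Hom J) (h0 : J ≠ ⊥) :
    ∃ F ∈ J, F ≠ 0 ∧ F.IsHomogeneous (alpha J) := by
  have hne : {d | ∃ F ∈ J, F ≠ 0 ∧ F.totalDegree = d}.Nonempty := by
    obtain ⟨F, hF, hF0⟩ := Submodule.exists_mem_ne_zero_of_ne_bot h0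
    exact ⟨_, F, hF, hF0, rfl⟩
  obtain ⟨F, hF, hF0, hFd⟩ := Nat.sInf_mem hne
  refine ⟨homogeneousComponent F.totalDegree F, hJ F hF _, top_component hF0, ?_⟩
  have := homogeneousComponent_isHomogeneous F.totalDegree F
  rwa [hFd] at this ⊢

theorem alpha_le {J : Ideal (MvPolynomial (Fin (n + 1)) K)} {F : MvPolynomial (Fin (n + 1)) K}
    (hF : F ∈ J) (hF0 : F ≠ 0) : alpha J ≤ F.totalDegree :=
  Nat.sInf_le ⟨F, hF, hF0, rfl⟩

/-- a family of ideals like the symbolic powers of an ideal -/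
structure Fam (h : ℕ) (J : ℕ → Ideal (MvPolynomial (Fin (n + 1)) K)) : Prop where
  good : Good h J
  hom : ∀ m, Hom (J m)
  mul : ∀ a b, ∀ F ∈ J a, ∀ G ∈ J b, F * G ∈ J (a + b)
  anti : ∀ a b, a ≤ b → J b ≤ J a
  one : ∃ F ∈ J 1, F ≠ 0
  zero : J 0 = ⊤

theorem Fam.pow {h : ℕ} {J : ℕ → Ideal (MvPolynomial (Fin (n + 1)) K)} (hJ : Fam h J) {a : ℕ}
    {F : MvPolynomial (Fin (n + 1)) K} (hF : F ∈ J a) (m : ℕ) : F ^ m ∈ J (a * m) := by
  induction m with
  | zero =>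
    rw [mul_zero, hJ.zero]
    exact Submodule.mem_top
  | succ m ih =>
    rw [pow_succ, Nat.mul_succ]
    exact hJ.mul _ _ _ ih _ hF

/-- the intersection of the `J i (τ i)` -/
noncomputable def inter {ι : Type*} (S : Finset ι) (J : ι → ℕ → Ideal (MvPolynomial (Fin (n + 1)) K))
    (τ : ι → ℕ) : Ideal (MvPolynomial (Fin (n + 1)) K) := ⨅ i ∈ S, J i (τ i)

section

variable {ι : Type*} {S : Finset ι} {J : ι → ℕ → Ideal (MvPolynomial (Fin (n + 1)) K)}

theorem mem_inter {τ : ι → ℕ} {F : MvPolynomial (Fin (n + 1)) K} :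
    F ∈ inter S J τ ↔ ∀ i ∈ S, F ∈ J i (τ i) := by
  unfold inter
  simp only [Submodule.mem_iInf]

variable {h : ℕ}

theorem inter_hom (hJ : ∀ i ∈ S, Fam h (J i)) (τ : ι → ℕ) : Hom (inter S J τ) := by
  intro F hF d
  rw [mem_inter] at hF ⊢
  exact fun i hi => (hJ i hi).hom _ F (hF i hi) d

theorem inter_ne_bot (hJ : ∀ i ∈ S, Fam h (J i)) (τ : ι → ℕ) : inter S J τ ≠ ⊥ := by
  classical
  choose! F hF hF0 using fun i (hi : i ∈ S) => (hJ i hi).one
  refine (Submodule.ne_bot_iff _).2 ⟨∏ i ∈ S, F i ^ τ i, ?_,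
    Finset.prod_ne_zero_iff.2 fun i hi => pow_ne_zero _ (hF0 i hi)⟩
  rw [mem_inter]
  intro i hi
  rw [← Finset.mul_prod_erase _ _ hi]
  apply Ideal.mul_mem_right
  have := (hJ i hi).pow (hF i hi) (τ i)
  rwa [one_mul] at this

/-- **The inequality for initial degrees.** -/
theorem alpha_ineq [IsAlgClosed K] (hS : S.Nonempty) (hh : 1 ≤ h) (hJ : ∀ i ∈ S, Fam h (J i))
    (τ : ι → ℕ) (hτ : ∀ i ∈ S, 1 ≤ τ i) (r : ℕ) :
    r * (alpha (inter S J τ) + h - 1) ≤ alpha (inter S J (fun i => r * (τ i + h - 1))) := by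
  obtain ⟨F, hF, hF0, hFh⟩ := alpha_spec (inter_hom hJ _) (inter_ne_bot hJ _)
  refine main_ineq S hS hh J (fun i hi => (hJ i hi).good) τ hτ r _ ?_ F _ hF0 hFh
    (mem_inter.1 hF)
  intro G g hG0 hG hGJ
  have := alpha_le (mem_inter.2 hGJ) hG0
  rwa [hG.totalDegree hG0] at this

theorem alpha_mono (hJ : ∀ i ∈ S, Fam h (J i)) {τ τ' : ι → ℕ} (hτ : ∀ i ∈ S, τ i ≤ τ' i) :
    alpha (inter S J τ) ≤ alpha (inter S J τ') := by
  obtain ⟨F, hF, hF0, hFh⟩ := alpha_spec (inter_hom hJ τ') (inter_ne_bot hJ _)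
  have h1 : F ∈ inter S J τ := by
    rw [mem_inter] at hF ⊢
    exact fun i hi => (hJ i hi).anti _ _ (hτ i hi) (hF i hi)
  have := alpha_le h1 hF0
  rwa [hFh.totalDegree hF0] at this

theorem alpha_add (hJ : ∀ i ∈ S, Fam h (J i)) (τ τ' : ι → ℕ) :
    alpha (inter S J (fun i => τ i + τ' i)) ≤ alpha (inter S J τ) + alpha (inter S J τ') := by
  obtain ⟨F, hF, hF0, hFh⟩ := alpha_spec (inter_hom hJ τ) (inter_ne_bot hJ _)
  obtain ⟨G, hG, hG0, hGh⟩ := alpha_spec (inter_hom hJ τ') (inter_ne_bot hJ _)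
  have h1 : F * G ∈ inter S J (fun i => τ i + τ' i) := by
    rw [mem_inter] at hF hG ⊢
    exact fun i hi => (hJ i hi).mul _ _ _ (hF i hi) _ (hG i hi)
  have h2 := alpha_le h1 (mul_ne_zero hF0 hG0)
  rwa [(hFh.mul hGh).totalDegree (mul_ne_zero hF0 hG0)] at h2

theorem alpha_pow (hJ : ∀ i ∈ S, Fam h (J i)) (τ : ι → ℕ) (m : ℕ) :
    alpha (inter S J (fun i => τ i * m)) ≤ m * alpha (inter S J τ) := by
  obtain ⟨F, hF, hF0, hFh⟩ := alpha_spec (inter_hom hJ τ) (inter_ne_bot hJ _)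
  have h1 : F ^ m ∈ inter S J (fun i => τ i * m) := by
    rw [mem_inter] at hF ⊢
    exact fun i hi => (hJ i hi).pow (hF i hi) m
  have h2 := alpha_le h1 (pow_ne_zero _ hF0)
  rw [(hFh.pow m).totalDegree (pow_ne_zero _ hF0)] at h2
  rwa [mul_comm] at h2

/-- **Demailly's inequality** for the multiples of a fixed system of multiplicities -/
theorem demailly_nat [IsAlgClosed K] (hS : S.Nonempty) (hh : 1 ≤ h) (hJ : ∀ i ∈ S, Fam h (J i))
    (w : ι → ℕ) (hw : ∀ i ∈ S, 1 ≤ w i) (m r : ℕ) (hm : 1 ≤ m) :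
    r * (alpha (inter S J (fun i => m * w i)) + h - 1) ≤
      alpha (inter S J (fun i => r * w i)) * (m + h - 1) := by
  have h1 := alpha_ineq hS hh hJ (fun i => m * w i)
    (fun i hi => Nat.mul_pos (by omega) (hw i hi)) r
  have h2 : alpha (inter S J (fun i => r * (m * w i + h - 1))) ≤
      alpha (inter S J (fun i => r * w i * (m + h - 1))) := by
    refine alpha_mono hJ fun i hi => ?_
    have h3 := hw i hi
    obtain ⟨h', rfl⟩ : ∃ h', h = h' + 1 := ⟨h - 1, by omega⟩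
    have e1 : m * w i + (h' + 1) - 1 = m * w i + h' := by omega
    have e2 : m + (h' + 1) - 1 = m + h' := by omega
    rw [e1, e2, mul_assoc]
    refine Nat.mul_le_mul_left _ ?_
    have h4 : h' * 1 ≤ h' * w i := Nat.mul_le_mul_left _ h3
    calc m * w i + h' ≤ m * w i + h' * w i := by omega
      _ = w i * (m + h') := by ring
  have h5 := alpha_pow hJ (fun i => r * w i) (m + h - 1)
  calc _ ≤ _ := h1
    _ ≤ _ := h2
    _ ≤ _ := h5
    _ = _ := mul_comm _ _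

theorem subadd (hJ : ∀ i ∈ S, Fam h (J i)) (w : ι → ℕ) :
    Subadditive (fun r : ℕ => (alpha (inter S J (fun i => r * w i)) : ℝ)) := by
  intro a b
  beta_reduce
  have h1 := alpha_add hJ (fun i => a * w i) (fun i => b * w i)
  have h2 : (fun i => (a + b) * w i) = (fun i => a * w i + b * w i) := by
    funext i
    ring
  rw [h2]
  exact_mod_cast h1

/-- **The Waldschmidt constant and Demailly's bound** -/
theorem demailly_real [IsAlgClosed K] (hS : S.Nonempty) (hh : 1 ≤ h) (hJ : ∀ i ∈ S, Fam h (J i))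
    (w : ι → ℕ) (hw : ∀ i ∈ S, 1 ≤ w i) :
    ∃ c : ℝ, Tendsto (fun r : ℕ => (alpha (inter S J (fun i => r * w i)) : ℝ) / r) atTop (𝓝 c) ∧
      (∀ r : ℕ, 1 ≤ r → c ≤ (alpha (inter S J (fun i => r * w i)) : ℝ) / r) ∧
      ∀ m : ℕ, 1 ≤ m →
        ((alpha (inter S J (fun i => m * w i)) : ℝ) + h - 1) / ((m : ℝ) + h - 1) ≤ c := by
  have hsub := subadd hJ w
  have hb : BddBelow (Set.range fun r : ℕ =>
      (fun r : ℕ => (alpha (inter S J (fun i => r * w i)) : ℝ)) r / r) := by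
    refine ⟨0, ?_⟩
    rintro _ ⟨r, rfl⟩
    positivity
  refine ⟨_, hsub.tendsto_lim hb, fun r hr => hsub.lim_le_div hb (by omega), fun m hm => ?_⟩
  refine ge_of_tendsto (hsub.tendsto_lim hb) ?_
  filter_upwards [eventually_ge_atTop 1] with r hr
  exact real_of_nat hh hm hr (demailly_nat hS hh hJ w hw m r hm)

end

end Pool.Agent.H35.DM
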