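import Pool.Graph.R_seed8.H737R3.FatZero

/-!
# Forms which lie locally in high powers of ideals with few generators, positive characteristic

`Dat h v M F`: near `v` the polynomial `F` lies in the `M`-th power of an ideal generated by `h`
polynomials which vanish at `v`.
-/

set_option autoImplicit false

universe u

namespace Pool.Agent.H35.DM

open MvPolynomial Pool.Agent.Chud Pool.Agent.H580C Pool.Agent.H737R3

/-- The polynomial `F` lies, near the point `v`, in the `M`-th power of an ideal generated by `h`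
polynomials `f 0, …, f (h-1)` which vanish at `v`: there is a polynomial `s` with `s(v) ≠ 0` such
that `s F` is a combination of the products of `M` of the `f i`. -/
def Dat {k : Type u} [Field k] {N : ℕ} (h : ℕ) (v : Fin N → k) (M : ℕ)
    (F : MvPolynomial (Fin N) k) : Prop :=
  ∃ (s : MvPolynomial (Fin N) k) (f : Fin h → MvPolynomial (Fin N) k)
    (r : (Fin M → Fin h) → MvPolynomial (Fin N) k),
    eval v s ≠ 0 ∧ (∀ i, eval v (f i) = 0) ∧ s * F = ∑ j, r j * ∏ i, f (j i)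

section

variable {k : Type u} [Field k] {N : ℕ}

theorem span_pow_eq {h : ℕ} (f : Fin h → MvPolynomial (Fin N) k) (M : ℕ) :
    (Ideal.span (Set.range f)) ^ M =
      Ideal.span (Set.range (fun j : Fin M → Fin h => ∏ i, f (j i))) := by
  rw [Ideal.span, Submodule.span_pow]
  congr 1
  ext x
  rw [Set.mem_pow]
  constructor
  · rintro ⟨g, rfl⟩
    choose j hj using fun i => (g i).2
    refine ⟨j, ?_⟩
    rw [List.prod_ofFn]
    exact Finset.prod_congr rfl fun i _ => hj i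
  · rintro ⟨j, rfl⟩
    refine ⟨fun i => ⟨f (j i), j i, rfl⟩, ?_⟩
    rw [List.prod_ofFn]

theorem dat_iff {h : ℕ} {v : Fin N → k} {M : ℕ} {F : MvPolynomial (Fin N) k} :
    Dat h v M F ↔ ∃ (s : MvPolynomial (Fin N) k) (f : Fin h → MvPolynomial (Fin N) k),
      eval v s ≠ 0 ∧ (∀ i, eval v (f i) = 0) ∧ s * F ∈ (Ideal.span (Set.range f)) ^ M := by
  constructor
  · rintro ⟨s, f, r, hs, hf, h⟩
    refine ⟨s, f, hs, hf, ?_⟩
    rw [span_pow_eq, h]
    exact Ideal.sum_mem _ fun j _ => Ideal.mul_mem_left _ _ (Ideal.subset_span ⟨j, rfl⟩)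
  · rintro ⟨s, f, hs, hf, h⟩
    rw [span_pow_eq, Ideal.mem_span_range_iff_exists_fun] at h
    obtain ⟨c, hc⟩ := h
    exact ⟨s, f, c, hs, hf, hc.symm⟩

theorem span_le_mI {h : ℕ} {f : Fin h → MvPolynomial (Fin N) k} {v : Fin N → k}
    (hf : ∀ i, eval v (f i) = 0) : Ideal.span (Set.range f) ≤ mI v := by
  rw [Ideal.span_le]
  rintro _ ⟨i, rfl⟩
  exact hf i

theorem mu_of_eval_ne {v : Fin N → k} {s : MvPolynomial (Fin N) k} (hs : eval v s ≠ 0) :
    mu v s = 0 := by
  have hs0 : s ≠ 0 := by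
    rintro rfl
    exact hs (map_zero _)
  by_contra hne
  exact hs ((mu_pos_iff v hs0).1 (Nat.pos_of_ne_zero hne))

theorem ne_of_eval_ne {v : Fin N → k} {s : MvPolynomial (Fin N) k} (hs : eval v s ≠ 0) :
    s ≠ 0 := by
  rintro rfl
  exact hs (map_zero _)

/-- the order at `v` -/
theorem Dat.mem {h : ℕ} {v : Fin N → k} {M : ℕ} {F : MvPolynomial (Fin N) k}
    (hD : Dat h v M F) : F ∈ mI v ^ M := by
  obtain ⟨s, f, hs, hf, h⟩ := dat_iff.1 hD
  rcases eq_or_ne F 0 with rfl | hF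
  · exact Ideal.zero_mem _
  have h1 : s * F ∈ mI v ^ M := Ideal.pow_right_mono (span_le_mI hf) _ h
  have hs0 := ne_of_eval_ne hs
  rw [mem_mI_pow_iff v (mul_ne_zero hs0 hF), mu_mul v hs0 hF, mu_of_eval_ne hs, zero_add] at h1
  rwa [mem_mI_pow_iff v hF]

theorem Dat.mono {h : ℕ} {v : Fin N → k} {M M' : ℕ} {F : MvPolynomial (Fin N) k}
    (hD : Dat h v M F) (hM : M' ≤ M) : Dat h v M' F := by
  obtain ⟨s, f, hs, hf, h⟩ := dat_iff.1 hD
  exact dat_iff.2 ⟨s, f, hs, hf, Ideal.pow_le_pow_right hM h⟩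

theorem Dat.pow {h : ℕ} {v : Fin N → k} {M : ℕ} {F : MvPolynomial (Fin N) k}
    (hD : Dat h v M F) (u : ℕ) : Dat h v (M * u) (F ^ u) := by
  obtain ⟨s, f, hs, hf, h⟩ := dat_iff.1 hD
  refine dat_iff.2 ⟨s ^ u, f, by rw [map_pow]; exact pow_ne_zero _ hs, hf, ?_⟩
  rw [← mul_pow, pow_mul]
  exact Ideal.pow_mem_pow h u

theorem Dat.sub {h : ℕ} {v : Fin N → k} {M : ℕ} {F : MvPolynomial (Fin N) k}
    (e : (Fin N → k) ≃ₗ[k] (Fin N → k)) (hD : Dat h (e v) M F) : Dat h v M (sub e F) := by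
  obtain ⟨s, f, r, hs, hf, h⟩ := hD
  have h3 := (t_SU k N e).2.2.1
  refine ⟨H580C.sub e s, fun i => H580C.sub e (f i), fun j => H580C.sub e (r j), ?_, ?_, ?_⟩
  · rw [h3]
    exact hs
  · intro i
    rw [h3]
    exact hf i
  · rw [← map_mul, h, map_sum]
    refine Finset.sum_congr rfl fun j _ => ?_
    rw [map_mul, map_prod]

end

section

variable {k : Type u} [Field k] {N : ℕ}

/-- the pigeonhole principle for the exponents of the generators -/
theorem pigeon {h : ℕ} (hh : 1 ≤ h) (f : Fin h → MvPolynomial (Fin N) k) {q m M : ℕ} (hq : 1 ≤ q)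
    (hM : q * (m + h - 1) ≤ M) :
    (Ideal.span (Set.range f)) ^ M ≤
      Ideal.span ((fun y => y ^ q) '' (((Ideal.span (Set.range f)) ^ m : Ideal _) : Set _)) := by
  classical
  rw [span_pow_eq f M, Ideal.span_le]
  rintro _ ⟨j, rfl⟩
  set c : Fin h → ℕ := fun x => (Finset.univ.filter (fun i => j i = x)).card with hc
  have h1 : ∏ i, f (j i) = ∏ x, f x ^ c x := by
    rw [← Finset.prod_fiberwise Finset.univ j (fun i => f (j i))]
    refine Finset.prod_congr rfl fun x _ => ?_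
    rw [Finset.prod_congr rfl (g := fun _ => f x), Finset.prod_const]
    intro i hi
    rw [(Finset.mem_filter.1 hi).2]
  have h2 : ∑ x, c x = M := by
    have := Finset.card_eq_sum_card_fiberwise (f := j) (s := Finset.univ) (t := Finset.univ)
      (fun _ _ => Finset.mem_coe.2 (Finset.mem_univ _))
    rw [Finset.card_univ, Fintype.card_fin] at this
    exact this.symm
  have h3 : ∏ x, f x ^ c x = (∏ x, f x ^ (c x / q)) ^ q * ∏ x, f x ^ (c x % q) := by
    rw [← Finset.prod_pow, ← Finset.prod_mul_distrib]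
    refine Finset.prod_congr rfl fun x _ => ?_
    rw [← pow_mul, ← pow_add, mul_comm (c x / q) q, Nat.div_add_mod]
  have h4 : m ≤ ∑ x, c x / q := by
    by_contra hcon
    push Not at hcon
    have h5 : ∑ x, c x ≤ q * (∑ x, c x / q) + h * (q - 1) := by
      have : ∀ x : Fin h, c x ≤ q * (c x / q) + (q - 1) := by
        intro x
        have h6 := Nat.div_add_mod (c x) q
        have h7 := Nat.mod_lt (c x) (show 0 < q by omega)
        omega
      calc ∑ x, c x ≤ ∑ x : Fin h, (q * (c x / q) + (q - 1)) := Finset.sum_le_sum fun x _ => this x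
        _ = q * (∑ x, c x / q) + h * (q - 1) := by
          rw [Finset.sum_add_distrib, ← Finset.mul_sum]
          simp
    obtain ⟨q', rfl⟩ : ∃ q', q = q' + 1 := ⟨q - 1, by omega⟩
    obtain ⟨h', rfl⟩ : ∃ h', h = h' + 1 := ⟨h - 1, by omega⟩
    obtain ⟨m', rfl⟩ : ∃ m', m = m' + 1 := ⟨m - 1, by omega⟩
    have h8 : (q' + 1) * (∑ x, c x / (q' + 1)) ≤ (q' + 1) * m' := Nat.mul_le_mul_left _ (by omega)
    have e1 : m' + 1 + (h' + 1) - 1 = m' + h' + 1 := by omega
    have e2 : q' + 1 - 1 = q' := by omega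
    rw [e1] at hM
    rw [e2] at h5
    nlinarith
  change ∏ i, f (j i) ∈ _
  rw [h1, h3]
  have h9 : ∏ x, f x ^ (c x / q) ∈ ∏ x : Fin h, (Ideal.span (Set.range f)) ^ (c x / q) :=
    Ideal.prod_mem_prod fun x _ => Ideal.pow_mem_pow (Ideal.subset_span (Set.mem_range_self x)) _
  rw [Finset.prod_pow_eq_pow_sum] at h9
  have h10 : ∏ x, f x ^ (c x / q) ∈ (Ideal.span (Set.range f)) ^ m :=
    Ideal.pow_le_pow_right h4 h9
  exact Ideal.mul_mem_right _ _ (Ideal.subset_span (Set.mem_image_of_mem _ h10))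

/-- the ideals generated by `q`-th powers are stable under the Hasse derivatives of small order -/
theorem hd_stable (p e : ℕ) [Fact p.Prime] [CharP k p] (b : Fin N →₀ ℕ) (hb : ∀ i, b i < p ^ e)
    (Y : Set (MvPolynomial (Fin N) k)) {x : MvPolynomial (Fin N) k}
    (hx : x ∈ Ideal.span ((fun y => y ^ (p ^ e)) '' Y)) :
    hd b x ∈ Ideal.span ((fun y => y ^ (p ^ e)) '' Y) := by
  have key : ∀ r : MvPolynomial (Fin N) k, hd b (r * x) ∈ Ideal.span ((fun y => y ^ (p ^ e)) '' Y) := by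
    refine Submodule.span_induction (p := fun x _ => ∀ r : MvPolynomial (Fin N) k,
      hd b (r * x) ∈ Ideal.span ((fun y => y ^ (p ^ e)) '' Y)) ?_ ?_ ?_ ?_ hx
    · rintro _ ⟨y, hy, rfl⟩ r
      beta_reduce
      rw [mul_comm, t_HP k p e N b y r hb]
      exact Ideal.mul_mem_right _ _ (Ideal.subset_span ⟨y, hy, rfl⟩)
    · intro r
      rw [mul_zero, map_zero]
      exact Ideal.zero_mem _
    · intro x y _ _ h1 h2 r
      rw [mul_add, map_add]
      exact Ideal.add_mem _ (h1 r) (h2 r)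
    · intro a x _ h1 r
      rw [smul_eq_mul, ← mul_assoc]
      exact h1 (r * a)
  have := key 1
  rwa [one_mul] at this

/-- derivatives of elements of high powers -/
theorem Dat.hd {h : ℕ} (hh : 1 ≤ h) (p e : ℕ) [Fact p.Prime] [CharP k p] {v : Fin N → k} {m : ℕ}
    {F : MvPolynomial (Fin N) k} (hD : Dat h v (p ^ e * (m + h - 1)) F)
    (b : Fin N →₀ ℕ) (hb : ∀ i, b i < p ^ e) :
    H580C.hd b F ∈ mI v ^ (p ^ e * m) := by
  obtain ⟨s, f, hs, hf, h1⟩ := dat_iff.1 hD
  have hq : 1 ≤ p ^ e := Nat.one_le_pow _ _ (Fact.out : p.Prime).pos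
  rcases eq_or_ne (H580C.hd b F) 0 with h0 | h0
  · rw [h0]
    exact Ideal.zero_mem _
  have h2 : s ^ (p ^ e) * F ∈ (Ideal.span (Set.range f)) ^ (p ^ e * (m + h - 1)) := by
    obtain ⟨q', hq'⟩ : ∃ q', p ^ e = q' + 1 := ⟨p ^ e - 1, by omega⟩
    have : s ^ (p ^ e) * F = s ^ q' * (s * F) := by
      rw [hq', pow_succ]
      ring
    rw [this]
    exact Ideal.mul_mem_left _ _ h1
  have h3 := hd_stable p e b hb _ (pigeon hh f hq le_rfl h2)
  rw [t_HP k p e N b s F hb] at h3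
  have h4 : Ideal.span ((fun y => y ^ (p ^ e)) '' (((Ideal.span (Set.range f)) ^ m : Ideal _) :
      Set (MvPolynomial (Fin N) k))) ≤ mI v ^ (p ^ e * m) := by
    rw [Ideal.span_le]
    rintro _ ⟨y, hy, rfl⟩
    rw [mul_comm (p ^ e) m, pow_mul]
    exact Ideal.pow_mem_pow (Ideal.pow_right_mono (span_le_mI hf) _ hy) _
  have h5 := h4 h3
  have hs0 := ne_of_eval_ne hs
  rw [mem_mI_pow_iff v (mul_ne_zero (pow_ne_zero _ hs0) h0), mu_mul v (pow_ne_zero _ hs0) h0,
    BL_mu_pow v hs0, mu_of_eval_ne hs, mul_zero, zero_add] at h5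
  rwa [mem_mI_pow_iff v h0]

end

/-- lowering the degree -/
theorem lowT_add {k : Type u} [Field k] [IsAlgClosed k] {N a : ℕ} {Z : Set (Fin N → k)}
    {τ : (Fin N → k) → ℕ} (hw : ∃ z ∈ Z, 1 ≤ τ z)
    (hL : LowW Z τ a) (j : ℕ) :
    LowW Z (fun v => if τ v = 0 then 0 else τ v + j) (a + j) := by
  induction j with
  | zero =>
    intro F d hF hd hv
    refine hL F d hF hd fun v hvZ => ?_
    have := hv v hvZ
    beta_reduce at this
    split_ifs at this with h0
    · rwa [h0]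
    · exact this
  | succ j ih =>
    intro F d hF hd hv
    obtain ⟨z, hz, hwz⟩ := hw
    have h0 := hv z hz
    beta_reduce at h0
    rw [if_neg (by omega)] at h0
    have h1 : τ z + (j + 1) ≤ mu z F := (mem_mI_pow_iff z hF _).1 h0
    have h2 := mu_le_totalDegree z hF
    rw [hd.totalDegree hF] at h2
    obtain ⟨G, hG, hGh, hGv⟩ := t_DL k N d F hF hd (by omega)
    have h4 := ih G (d - 1) hG hGh (by
      intro v hvZ
      have h5 := hv v hvZ
      beta_reduce at h5 ⊢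
      split_ifs at h5 ⊢ with h6
      · rw [pow_zero, Ideal.one_eq_top]
        exact Submodule.mem_top
      · exact hGv v _ h5)
    omega

/-- forms with large orders, for sets outside the hyperplane `x_0 = 0` -/
theorem star (k : Type u) [Field k] [IsAlgClosed k] (p : ℕ)
    [Fact p.Prime] [CharP k p] (n h a : ℕ) (Z : Set (Fin (n + 1) → k))
    (τ : (Fin (n + 1) → k) → ℕ) (hh : 1 ≤ h)
    (hw : ∃ z ∈ Z, 1 ≤ τ z) (hZ0 : ∀ v ∈ Z, v 0 ≠ 0) (hL : LowW Z τ a) (e D : ℕ)
    (F : MvPolynomial (Fin (n + 1)) k) (hF0 : F ≠ 0) (hF : F.IsHomogeneous D)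
    (hFv : ∀ v ∈ Z, 1 ≤ τ v → Dat h v (p ^ e * (τ v + h - 1)) F) : p ^ e * (a + h - 1) ≤ D := by
  have hp : p.Prime := Fact.out
  have hq : 0 < p ^ e := pow_pos hp.pos e
  have hHC := t_HC.{u}
  have hd0 : hd (0 : Fin (n + 1) →₀ ℕ) F = F := by
    ext c
    rw [hHC]
    simp
  obtain ⟨b, -, hb1, hb2, hb3, hb4⟩ := p_MX k p e (n + 1) {i | i ≠ 0} F 0
    (fun i => hq) (fun i _ => rfl) (by rw [hd0]; exact hF0)
  have hBd : b.degree ≤ D := by
    obtain ⟨c, hc⟩ := MvPolynomial.ne_zero_iff.1 hb3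
    rw [hHC] at hc
    have hc' : coeff (c + b) F ≠ 0 := right_ne_zero_of_mul hc
    have := hF hc'
    rw [Pi.one_def] at this
    have h2 : (c + b).degree = D := by
      rw [Finsupp.degree_eq_weight_one]
      exact this
    rw [map_add] at h2
    omega
  obtain ⟨c, d', G, -, hG2, hG3, hG4, -⟩ := t_RT k p e (n + 1) (D - b.degree) 0 (hd b F) hb3
    (p_HH k (n + 1) b D F hF) hb4
  have hG0 : G ≠ 0 := by
    intro h
    apply hb3
    rw [hG4, h, zero_pow hq.ne', mul_zero]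
  have hX0 : (X 0 : MvPolynomial (Fin (n + 1)) k) ≠ 0 := X_ne_zero 0
  -- the order of the derivative
  have hmu : ∀ v ∈ Z, mu v (hd b F) = p ^ e * mu v G := by
    intro v hv
    have hmuX : mu v (X 0 : MvPolynomial (Fin (n + 1)) k) = 0 :=
      mu_of_eval_ne (by rw [eval_X]; exact hZ0 v hv)
    rw [hG4, mu_mul v (pow_ne_zero _ hX0) (pow_ne_zero _ hG0), BL_mu_pow v hX0,
      BL_mu_pow v hG0, hmuX, mul_zero, zero_add]
  have m1 : ∀ v ∈ Z, 1 ≤ τ v → p ^ e * (τ v + h - 1) ≤ p ^ e * mu v G + b.degree := by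
    intro v hv hτ
    have h1 := t_HM k (n + 1) b v _ F (hFv v hv hτ).mem
    rw [mem_mI_pow_iff v hb3, hmu v hv] at h1
    omega
  have m2 : ∀ v ∈ Z, 1 ≤ τ v → p ^ e * τ v ≤ p ^ e * mu v G := by
    intro v hv hτ
    have h1 := (hFv v hv hτ).hd hh p e b hb1
    rwa [mem_mI_pow_iff v hb3, hmu v hv] at h1
  set q := p ^ e with hqdef
  set B := b.degree with hB
  set j := B / q with hj
  have hj1 : q * j ≤ B := Nat.mul_div_le B q
  have hj2 : B < q * (j + 1) := Nat.lt_mul_div_succ B (by omega)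
  rcases Nat.lt_or_ge j h with hjh | hjh
  · obtain ⟨i, hi⟩ : ∃ i, h = j + 1 + i := ⟨h - (j + 1), by omega⟩
    have hlow := lowT_add hw hL i G d' hG0 hG2 (by
      intro v hv
      rw [mem_mI_pow_iff v hG0]
      beta_reduce
      split_ifs with h0
      · exact Nat.zero_le _
      · have h1 := m1 v hv (by omega)
        have e1 : τ v + h - 1 = τ v + j + i := by omega
        rw [e1] at h1
        by_contra hcon
        push Not at hcon
        have h3 : q * (mu v G + 1 + j) ≤ q * (τ v + j + i) := Nat.mul_le_mul_left _ (by omega)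
        have h4 : q * (mu v G + 1 + j) = q * mu v G + q * (j + 1) := by ring
        omega)
    have h5 : q * (a + i) ≤ q * d' := Nat.mul_le_mul_left _ hlow
    have e2 : a + h - 1 = a + i + j := by omega
    have e3 : q * (a + h - 1) = q * (a + i) + q * j := by rw [e2]; ring
    omega
  · have hlow := hL G d' hG0 hG2 (by
      intro v hv
      rw [mem_mI_pow_iff v hG0]
      rcases Nat.eq_zero_or_pos (τ v) with h0 | h0
      · omega
      · exact Nat.le_of_mul_le_mul_left (m2 v hv h0) hq)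
    have h5 : q * a ≤ q * d' := Nat.mul_le_mul_left _ hlow
    have h6 : q * h ≤ q * j := Nat.mul_le_mul_left _ hjh
    have h7 : q * (a + h - 1) ≤ q * (a + h) := Nat.mul_le_mul_left _ (by omega)
    have h8 : q * (a + h) = q * a + q * h := by ring
    omega

/-- sets outside the hyperplane `x_0 = 0`, arbitrary multiples -/
theorem core (k : Type u) [Field k] [IsAlgClosed k] (p : ℕ)
    [Fact p.Prime] [CharP k p] (n h a r d : ℕ) (Z : Set (Fin (n + 1) → k))
    (τ : (Fin (n + 1) → k) → ℕ) (hh : 1 ≤ h)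
    (hw : ∃ z ∈ Z, 1 ≤ τ z) (hZ0 : ∀ v ∈ Z, v 0 ≠ 0) (hL : LowW Z τ a)
    (F : MvPolynomial (Fin (n + 1)) k) (hF0 : F ≠ 0) (hF : F.IsHomogeneous d)
    (hFv : ∀ v ∈ Z, 1 ≤ τ v → Dat h v (r * (τ v + h - 1)) F) : r * (a + h - 1) ≤ d := by
  by_contra hcon
  rw [not_le] at hcon
  have hr : 1 ≤ r := by
    rcases Nat.eq_zero_or_pos r with h | h
    · subst h
      omega
    · exact h
  have hp := (Fact.out : p.Prime).one_lt
  have hq : d * r < p ^ (d * r) := Nat.lt_pow_self hp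
  set e := d * r with he
  set q := p ^ e with hqd
  set b := a + h - 1 with hb
  set M := (q + r - 1) / r with hM
  have hM1 : M * r ≤ q + r - 1 := Nat.div_mul_le_self _ _
  have hM2 : q ≤ M * r := by
    have h1 : q + r - 1 < r * (M + 1) := by
      rw [hM]
      exact Nat.lt_mul_div_succ _ (by omega)
    have h2 : r * (M + 1) = M * r + r := by ring
    omega
  have h1 := star k p n h a Z τ hh hw hZ0 hL e (d * M) (F ^ M) (pow_ne_zero _ hF0)
    (hF.pow M) (by
      intro v hv hτ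
      refine ((hFv v hv hτ).pow M).mono ?_
      have h3 : r * (τ v + h - 1) * M = M * r * (τ v + h - 1) := by ring
      rw [h3]
      exact Nat.mul_le_mul_right _ hM2)
  have h2 : r * (q * b) ≤ r * (d * M) := Nat.mul_le_mul_left _ h1
  have h3 : d * (M * r) ≤ d * (q + r - 1) := Nat.mul_le_mul_left _ hM1
  obtain ⟨r', rfl⟩ : ∃ r', r = r' + 1 := ⟨r - 1, by omega⟩
  have e3 : q + (r' + 1) - 1 = q + r' := by omega
  rw [e3] at h3
  obtain ⟨c, hc⟩ := Nat.exists_eq_add_of_lt hcon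
  have h4 : q * ((r' + 1) * b) ≤ q * d + d * r' := by nlinarith
  rw [hc] at h4
  have h5 : q ≤ d * r' := by nlinarith
  have h6 : d * r' ≤ d * (r' + 1) := Nat.mul_le_mul_left _ (by omega)
  omega

/-- positive characteristic -/
theorem charP (k : Type u) [Field k] [IsAlgClosed k] (p : ℕ) [Fact p.Prime] [CharP k p]
    (n h a r d : ℕ) (Z : Set (Fin (n + 1) → k)) (τ : (Fin (n + 1) → k) → ℕ)
    (F : MvPolynomial (Fin (n + 1)) k)
    (hh : 1 ≤ h) (hZ : Z.Finite) (hw : ∃ z ∈ Z, 1 ≤ τ z) (hZ0 : ∀ v ∈ Z, v ≠ 0)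
    (hL : LowW Z τ a)
    (hF0 : F ≠ 0) (hF : F.IsHomogeneous d)
    (hFv : ∀ v ∈ Z, 1 ≤ τ v → Dat h v (r * (τ v + h - 1)) F) :
    r * (a + h - 1) ≤ d := by
  have : Infinite k := IsAlgClosed.instInfinite
  obtain ⟨e, he⟩ := t_CO k n Z hZ hZ0
  have hs := t_SU k (n + 1) e
  have hr := t_SU k (n + 1) e.symm
  obtain ⟨s1, s2, -, s4, -, -⟩ := hs
  obtain ⟨r1, r2, -, r4, -, -⟩ := hr
  have hne : ∀ G : MvPolynomial (Fin (n + 1)) k, G ≠ 0 → sub e G ≠ 0 := by
    intro G hG h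
    exact hG (s1 (by rw [h, map_zero]))
  have hne' : ∀ G : MvPolynomial (Fin (n + 1)) k, G ≠ 0 → sub e.symm G ≠ 0 := by
    intro G hG h
    exact hG (r1 (by rw [h, map_zero]))
  obtain ⟨z, hz, hwz⟩ := hw
  apply core k p n h a r d (e.symm '' Z) (fun u => τ (e u)) hh _ _ _
    (sub e F) (hne F hF0) (s2 F d hF)
  · rintro _ ⟨v, hv, rfl⟩ hτ
    rw [LinearEquiv.apply_symm_apply] at hτ ⊢
    refine Dat.sub e ?_
    rw [LinearEquiv.apply_symm_apply]
    exact hFv v hv hτ
  · exact ⟨e.symm z, ⟨z, hz, rfl⟩, by rw [LinearEquiv.apply_symm_apply]; exact hwz⟩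
  · rintro _ ⟨v, hv, rfl⟩
    exact he v hv
  · intro G D hG0 hG hGv
    apply hL (sub e.symm G) D (hne' G hG0) (r2 G D hG)
    intro v hv
    rw [r4]
    have := hGv _ ⟨v, hv, rfl⟩
    beta_reduce at this
    rwa [LinearEquiv.apply_symm_apply] at this

end Pool.Agent.H35.DM
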