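import Mathlib

/-!
# Derivations into the residue field
-/

set_option autoImplicit false

universe u

namespace Pool.Agent.H35.DM

open MvPolynomial IsLocalRing

/-- linear functionals on the cotangent space extend to derivations -/
theorem exists_deriv {K : Type u} [Field K] {N : ℕ} {A : Type u} [CommRing A] [IsLocalRing A]
    [Algebra (MvPolynomial (Fin N) K) A] [Algebra K A] [IsScalarTower K (MvPolynomial (Fin N) K) A]
    [Algebra.FormallySmooth K (ResidueField A)]
    (lam : CotangentSpace A →ₗ[ResidueField A] ResidueField A) :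
    ∃ D : Fin N → ResidueField A,
      ∀ (F : MvPolynomial (Fin N) K) (hF : algebraMap _ A F ∈ maximalIdeal A),
        lam ((maximalIdeal A).toCotangent ⟨algebraMap _ A F, hF⟩) =
          ∑ j, residue A (algebraMap _ A (pderiv j F)) * D j := by
  classical
  let I := maximalIdeal A
  let g : (A ⧸ I ^ 2) →ₐ[K] ResidueField A :=
    Ideal.Quotient.liftₐ (I ^ 2) (IsScalarTower.toAlgHom K A (ResidueField A)) (by
    intro a ha
    have h1 : a ∈ I := Ideal.pow_le_self two_ne_zero ha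
    exact (residue_eq_zero_iff a).2 h1)
  have hg : ∀ a : A, g (Ideal.Quotient.mk (I ^ 2) a) = residue A a := fun a => rfl
  have hgs : Function.Surjective g := by
    intro x
    obtain ⟨a, rfl⟩ := residue_surjective x
    exact ⟨Ideal.Quotient.mk _ a, rfl⟩
  have hker : ∀ b : A ⧸ I ^ 2, g b = 0 ↔ b ∈ I.cotangentIdeal := by
    intro b
    obtain ⟨a, rfl⟩ := Ideal.Quotient.mk_surjective b
    rw [hg, residue_eq_zero_iff, Ideal.mk_mem_cotangentIdeal]
  have hnil : IsNilpotent (RingHom.ker (g : (A ⧸ I ^ 2) →+* ResidueField A)) := by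
    refine ⟨2, ?_⟩
    have : RingHom.ker (g : (A ⧸ I ^ 2) →+* ResidueField A) = I.cotangentIdeal := by
      ext b
      exact hker b
    rw [this, Ideal.cotangentIdeal_square]
    rfl
  obtain ⟨σ, hσ⟩ : ∃ σ : ResidueField A →ₐ[K] (A ⧸ I ^ 2), ∀ x, g (σ x) = x :=
    ⟨Algebra.FormallySmooth.liftOfSurjective (AlgHom.id K (ResidueField A)) g hgs hnil, fun x =>
      Algebra.FormallySmooth.liftOfSurjective_apply (AlgHom.id K (ResidueField A)) g hgs hnil x⟩
  obtain ⟨π, hπ⟩ : ∃ π : MvPolynomial (Fin N) K →ₐ[K] (A ⧸ I ^ 2),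
      ∀ F, π F = Ideal.Quotient.mk (I ^ 2) (algebraMap _ A F) :=
    ⟨(Ideal.Quotient.mkₐ K (I ^ 2)).comp (IsScalarTower.toAlgHom K (MvPolynomial (Fin N) K) A),
      fun F => rfl⟩
  obtain ⟨ρ, hρ⟩ : ∃ ρ : MvPolynomial (Fin N) K →ₐ[K] ResidueField A,
      ∀ F, ρ F = residue A (algebraMap _ A F) :=
    ⟨(IsScalarTower.toAlgHom K A (ResidueField A)).comp
      (IsScalarTower.toAlgHom K (MvPolynomial (Fin N) K) A), fun F => rfl⟩
  have hgπ : ∀ F, g (π F) = ρ F := fun F => by rw [hπ, hρ, hg]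
  have hE : ∀ F, π F - σ (ρ F) ∈ I.cotangentIdeal := by
    intro F
    rw [← hker, map_sub, hσ, hgπ, sub_self]
  obtain ⟨Λ, hΛ0⟩ : ∃ Λ : I.cotangentIdeal →ₗ[A] ResidueField A,
      ∀ y, Λ y = lam (I.cotangentEquivIdeal.symm y) :=
    ⟨(lam.restrictScalars A).comp
      (I.cotangentEquivIdeal.symm : I.cotangentIdeal →ₗ[A] I.Cotangent), fun y => rfl⟩
  obtain ⟨D, hD⟩ : ∃ D : MvPolynomial (Fin N) K → ResidueField A,
      ∀ F, D F = Λ ⟨π F - σ (ρ F), hE F⟩ := ⟨fun F => Λ ⟨π F - σ (ρ F), hE F⟩, fun F => rfl⟩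
  have hΛ : ∀ (F : MvPolynomial (Fin N) K) (y : I.cotangentIdeal)
      (hy : π F * (y : A ⧸ I ^ 2) ∈ I.cotangentIdeal),
      Λ ⟨π F * (y : A ⧸ I ^ 2), hy⟩ = ρ F * Λ y := by
    intro F y hy
    have h1 : (⟨π F * (y : A ⧸ I ^ 2), hy⟩ : I.cotangentIdeal) =
        (algebraMap (MvPolynomial (Fin N) K) A F) • y := by
      apply Subtype.ext
      change π F * (y : A ⧸ I ^ 2) = (algebraMap (MvPolynomial (Fin N) K) A F) • (y : A ⧸ I ^ 2)
      rw [hπ, Algebra.smul_def]
      rfl
    rw [h1, map_smul, Algebra.smul_def, hρ]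
    rfl
  have hDadd : ∀ F G, D (F + G) = D F + D G := by
    intro F G
    rw [hD, hD, hD, ← map_add]
    congr 1
    apply Subtype.ext
    change π (F + G) - σ (ρ (F + G)) = (π F - σ (ρ F)) + (π G - σ (ρ G))
    rw [map_add, map_add, map_add]
    ring
  have hDC : ∀ a : K, D (C a) = 0 := by
    intro a
    rw [hD]
    have h1 : π (C a) - σ (ρ (C a)) = 0 := by
      have h2 : (C a : MvPolynomial (Fin N) K) = algebraMap K _ a := rfl
      rw [h2, AlgHom.commutes, AlgHom.commutes, AlgHom.commutes, sub_self]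
    have h3 : (⟨π (C a) - σ (ρ (C a)), hE (C a)⟩ : I.cotangentIdeal) = 0 := Subtype.ext h1
    rw [h3, map_zero]
  have hDmul : ∀ F G, D (F * G) = ρ F * D G + ρ G * D F := by
    intro F G
    have h0 : (π F - σ (ρ F)) * (π G - σ (ρ G)) = 0 := by
      have h1 := Ideal.mul_mem_mul (hE F) (hE G)
      rw [← pow_two, Ideal.cotangentIdeal_square] at h1
      exact h1
    have h2 : π (F * G) - σ (ρ (F * G)) = π F * (π G - σ (ρ G)) + π G * (π F - σ (ρ F)) := by
      rw [map_mul, map_mul, map_mul]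
      linear_combination -h0
    have h3 : π F * (π G - σ (ρ G)) ∈ I.cotangentIdeal := Ideal.mul_mem_left _ _ (hE G)
    have h4 : π G * (π F - σ (ρ F)) ∈ I.cotangentIdeal := Ideal.mul_mem_left _ _ (hE F)
    have h5 : (⟨π (F * G) - σ (ρ (F * G)), hE (F * G)⟩ : I.cotangentIdeal) =
        ⟨_, h3⟩ + ⟨_, h4⟩ := Subtype.ext h2
    rw [hD, hD, hD, h5, map_add, hΛ F ⟨_, hE G⟩ h3, hΛ G ⟨_, hE F⟩ h4]
  have hDform : ∀ F, D F = ∑ j, ρ (pderiv j F) * D (X j) := by
    intro F
    induction F using MvPolynomial.induction_on with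
    | C a => simp [hDC]
    | add p q hp hq =>
      rw [hDadd, hp, hq, ← Finset.sum_add_distrib]
      refine Finset.sum_congr rfl fun j _ => ?_
      rw [map_add, map_add, add_mul]
    | mul_X p i hp =>
      rw [hDmul, hp, Finset.mul_sum]
      have h1 : ∀ j, ρ (pderiv j (p * X i)) * D (X j) =
          ρ (X i) * (ρ (pderiv j p) * D (X j)) + (if j = i then ρ p * D (X i) else 0) := by
        intro j
        rw [Derivation.leibniz, map_add, smul_eq_mul, smul_eq_mul, map_mul, map_mul]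
        split_ifs with hji
        · subst hji
          rw [pderiv_X_self, map_one]
          ring
        · rw [pderiv_X_of_ne (Ne.symm hji), map_zero]
          ring
      rw [Finset.sum_congr rfl fun j _ => h1 j, Finset.sum_add_distrib, Finset.sum_ite_eq']
      simp [add_comm]
  refine ⟨fun j => D (X j), fun F hF => ?_⟩
  have h1 : D F = lam (I.toCotangent ⟨algebraMap _ _ F, hF⟩) := by
    have h2 : ρ F = 0 := by
      rw [hρ]
      exact (residue_eq_zero_iff _).2 hF
    have h3 : π F - σ (ρ F) = (I ^ 2).mkQ (algebraMap _ A F) := by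
      rw [h2, map_zero, sub_zero, hπ]
      rfl
    have h4 : (⟨π F - σ (ρ F), hE F⟩ : I.cotangentIdeal) =
        ⟨(I ^ 2).mkQ (algebraMap _ A F), Submodule.mem_map_of_mem hF⟩ := Subtype.ext h3
    rw [hD, hΛ0, h4, Ideal.cotangentEquivIdeal_symm_apply]
  rw [← h1, hDform F]
  simp only [hρ]

end Pool.Agent.H35.DM
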