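import Mathlib

/-!
# Local generators of a prime ideal of a polynomial ring

Over an algebraically closed field, a prime ideal of height at most `h` is generated, away from the
zeros of a polynomial outside of the ideal, by at most `h` polynomials with independent
differentials.
-/

set_option autoImplicit false

universe u

namespace Pool.Agent.H35.DM

open MvPolynomial IsLocalRing

section basis

variable {R : Type u} [CommRing R] [IsNoetherianRing R] (P : Ideal R) [hPp : P.IsPrime]

/-- a basis of the cotangent space at `P` which consists of the classes of elements of `P` -/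
theorem exists_basis (c : ℕ)
    (hc : Module.finrank (ResidueField (Localization.AtPrime P))
      (CotangentSpace (Localization.AtPrime P)) = c) :
    ∃ (f : Fin c → R) (hf : ∀ i, f i ∈ P)
      (bas : Module.Basis (Fin c) (ResidueField (Localization.AtPrime P))
        (CotangentSpace (Localization.AtPrime P))),
      (∀ i, bas i = (maximalIdeal (Localization.AtPrime P)).toCotangent
        ⟨algebraMap R (Localization.AtPrime P) (f i), by
          rw [← Localization.AtPrime.map_eq_maximalIdeal]
          exact Ideal.mem_map_of_mem _ (hf i)⟩) ∧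
      ∃ s : R, s ∉ P ∧ ∀ g ∈ P, s * g ∈ Ideal.span (Set.range f) := by
  classical
  set A := Localization.AtPrime P with hA
  have hmem : ∀ a ∈ P, algebraMap R A a ∈ maximalIdeal A := by
    intro a ha
    rw [← Localization.AtPrime.map_eq_maximalIdeal]
    exact Ideal.mem_map_of_mem _ ha
  let T : Set (maximalIdeal A) := Set.range (fun a : P => ⟨algebraMap R A a, hmem a a.2⟩)
  have hT : Submodule.span A T = ⊤ := by
    apply Submodule.map_injective_of_injective (maximalIdeal A).subtype_injective
    rw [Submodule.map_span, Submodule.map_top, Submodule.range_subtype]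
    have h1 : (maximalIdeal A).subtype '' T = algebraMap R A '' (P : Set R) := by
      ext x
      constructor
      · rintro ⟨_, ⟨a, rfl⟩, rfl⟩
        exact ⟨a, a.2, rfl⟩
      · rintro ⟨a, ha, rfl⟩
        exact ⟨_, ⟨⟨a, ha⟩, rfl⟩, rfl⟩
    rw [h1]
    exact Localization.AtPrime.map_eq_maximalIdeal
  have hT2 := IsLocalRing.CotangentSpace.span_image_eq_top_iff.2 hT
  obtain ⟨b, hb1, hb2, hb3⟩ := exists_linearIndependent (ResidueField A)
    ((maximalIdeal A).toCotangent '' T)
  rw [hT2] at hb2
  let b0 : Module.Basis b (ResidueField A) (CotangentSpace A) :=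
    Module.Basis.mk hb3 (by rw [Subtype.range_coe]; exact hb2.ge)
  have hfin : Finite b := Module.Finite.finite_basis b0
  have hcard : Nat.card b = c := by
    rw [← Module.finrank_eq_nat_card_basis b0]
    exact hc
  let e : b ≃ Fin c := Finite.equivFinOfCardEq hcard
  let bas := b0.reindex e
  have hbas : ∀ i, bas i = ((e.symm i : b) : CotangentSpace A) := by
    intro i
    simp [bas, b0]
  have hex : ∀ i, ∃ a, ∃ ha : a ∈ P, bas i = (maximalIdeal A).toCotangent ⟨algebraMap R A a, hmem a ha⟩ := by
    intro i
    obtain ⟨x, ⟨a, rfl⟩, hx⟩ := hb1 (e.symm i).2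
    exact ⟨a, a.2, by rw [hbas, ← hx]⟩
  choose f hf hfb using hex
  refine ⟨f, hf, bas, hfb, ?_⟩
  -- generation
  have hgen : Submodule.span A (Set.range (fun i => (⟨algebraMap R A (f i), hmem _ (hf i)⟩ :
      maximalIdeal A))) = ⊤ := by
    rw [← IsLocalRing.CotangentSpace.span_image_eq_top_iff, ← Set.range_comp]
    have h1 : ((maximalIdeal A).toCotangent ∘ fun i => (⟨algebraMap R A (f i), hmem _ (hf i)⟩ :
      maximalIdeal A)) = bas := by
      funext i
      exact (hfb i).symm
    rw [h1]
    exact bas.span_eq
  have hg : ∀ g ∈ P, ∃ m ∈ P.primeCompl, m * g ∈ Ideal.span (Set.range f) := by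
    intro g hg
    rw [← IsLocalization.algebraMap_mem_map_algebraMap_iff P.primeCompl A]
    have h1 : (⟨algebraMap R A g, hmem g hg⟩ : maximalIdeal A) ∈ Submodule.span A
        (Set.range (fun i => (⟨algebraMap R A (f i), hmem _ (hf i)⟩ : maximalIdeal A))) := by
      rw [hgen]
      trivial
    have h2 := Submodule.mem_map_of_mem (f := (maximalIdeal A).subtype) h1
    rw [Submodule.map_span, ← Set.range_comp] at h2
    rw [Ideal.map_span, ← Set.range_comp]
    exact h2
  choose! m hm1 hm2 using hg
  obtain ⟨G, hG⟩ := (IsNoetherian.noetherian P : P.FG)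
  refine ⟨∏ g ∈ G, m g, ?_, ?_⟩
  · intro h
    rw [Ideal.IsPrime.prod_mem_iff] at h
    obtain ⟨g, hg, hg'⟩ := h
    exact hm1 g (by rw [← hG]; exact Ideal.subset_span hg) hg'
  · intro x hx
    rw [← hG] at hx
    refine Submodule.span_induction (p := fun x _ => (∏ g ∈ G, m g) * x ∈
      Ideal.span (Set.range f)) ?_ ?_ ?_ ?_ hx
    · intro g hg
      have hg' : g ∈ P := by
        rw [← hG]
        exact Ideal.subset_span hg
      rw [← Finset.mul_prod_erase G m hg, mul_comm (m g), mul_assoc]
      exact Ideal.mul_mem_left _ _ (hm2 g hg')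
    · rw [mul_zero]
      exact Ideal.zero_mem _
    · intro a b _ _ ha hb
      rw [mul_add]
      exact Ideal.add_mem _ ha hb
    · intro a b _ hb
      rw [smul_eq_mul, mul_left_comm]
      exact Ideal.mul_mem_left _ _ hb

end basis

end Pool.Agent.H35.DM
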