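import Pool.Agent.H35.DM.Gens
import Pool.Agent.H35.DM.Deriv

/-!
# Local generators with independent differentials
-/

set_option autoImplicit false

universe u

namespace Pool.Agent.H35.DM

open MvPolynomial IsLocalRing

/-- common denominators -/
theorem exists_denom {R : Type u} [CommRing R] (P : Ideal R) [hPp : P.IsPrime] {ι : Type*}
    [Fintype ι] (z : ι → ResidueField (Localization.AtPrime P)) :
    ∃ (δ : R) (b : ι → R), δ ∉ P ∧ ∀ i, residue _ (algebraMap R (Localization.AtPrime P) δ) * z i =
      residue _ (algebraMap R (Localization.AtPrime P) (b i)) := by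
  classical
  have h : ∀ i, ∃ t ∈ P.primeCompl, ∃ a : R,
      residue _ (algebraMap R (Localization.AtPrime P) t) * z i =
        residue _ (algebraMap R (Localization.AtPrime P) a) := by
    intro i
    obtain ⟨x, hx⟩ := residue_surjective (z i)
    obtain ⟨⟨a, t⟩, hat⟩ := IsLocalization.surj P.primeCompl x
    refine ⟨t, t.2, a, ?_⟩
    rw [← hx, ← map_mul, mul_comm]
    exact congrArg _ hat
  choose t ht a ha using h
  refine ⟨∏ i, t i, fun i => a i * ∏ j ∈ Finset.univ.erase i, t j, ?_, fun i => ?_⟩
  · intro hmem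
    rw [Ideal.IsPrime.prod_mem_iff] at hmem
    obtain ⟨i, -, hi⟩ := hmem
    exact ht i hi
  · rw [← Finset.mul_prod_erase _ _ (Finset.mem_univ i), map_mul, map_mul, map_mul, map_mul,
      ← ha i]
    ring

theorem exists_jac {K : Type u} [Field K] [IsAlgClosed K] {N : ℕ}
    (P : Ideal (MvPolynomial (Fin N) K)) [hPp : P.IsPrime] (h : ℕ) (hP : P.height ≤ h) :
    ∃ (c : ℕ) (f : Fin c → MvPolynomial (Fin N) K) (s δ : MvPolynomial (Fin N) K)
      (B : Fin c → Fin N → MvPolynomial (Fin N) K),
      c ≤ h ∧ s ∉ P ∧ δ ∉ P ∧ (∀ i, f i ∈ P) ∧ (∀ g ∈ P, s * g ∈ Ideal.span (Set.range f)) ∧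
      ∀ i k, (∑ j, pderiv j (f i) * B k j) - (if i = k then δ else 0) ∈ P := by
  classical
  have hreg : IsRegularLocalRing (Localization.AtPrime P) :=
    IsRegularRing.isRegularLocalRing_localization P
  have hdim := (IsRegularLocalRing.iff_finrank_cotangentSpace (Localization.AtPrime P)).1 hreg
  rw [IsLocalization.AtPrime.ringKrullDim_eq_height P (Localization.AtPrime P)] at hdim
  obtain ⟨c, hc⟩ : ∃ c, Module.finrank (ResidueField (Localization.AtPrime P))
      (CotangentSpace (Localization.AtPrime P)) = c := ⟨_, rfl⟩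
  have hch : c ≤ h := by
    rw [hc] at hdim
    have h1 : ((P.height : ℕ∞) : WithBot ℕ∞) ≤ ((h : ℕ∞) : WithBot ℕ∞) :=
      WithBot.coe_le_coe.2 hP
    rw [← hdim] at h1
    exact_mod_cast h1
  obtain ⟨f, hf, bas, hbas, s, hs, hsf⟩ := exists_basis P c hc
  have hess : Algebra.EssFiniteType K (ResidueField (Localization.AtPrime P)) := by
    have h1 : Algebra.EssFiniteType K (Localization.AtPrime P) := inferInstance
    exact Algebra.EssFiniteType.of_surjective
      (IsScalarTower.toAlgHom K (Localization.AtPrime P) (ResidueField (Localization.AtPrime P)))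
      Ideal.Quotient.mk_surjective
  have hsm : Algebra.FormallySmooth K (ResidueField (Localization.AtPrime P)) := inferInstance
  choose D hD using fun k : Fin c => exists_deriv (K := K) (N := N)
    (A := Localization.AtPrime P) (bas.coord k)
  obtain ⟨δ, b, hδ, hb⟩ := exists_denom P (fun x : Fin c × Fin N => D x.1 x.2)
  refine ⟨c, f, s, δ, fun k j => b (k, j), hch, hs, hδ, hf, hsf, fun i k => ?_⟩
  have hmem : algebraMap _ (Localization.AtPrime P) (f i) ∈
      maximalIdeal (Localization.AtPrime P) := by
    rw [← Localization.AtPrime.map_eq_maximalIdeal]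
    exact Ideal.mem_map_of_mem _ (hf i)
  have h1 := hD k (f i) hmem
  rw [← hbas i] at h1
  have h2 : bas.coord k (bas i) = if i = k then 1 else 0 := by
    rw [Module.Basis.coord_apply, Module.Basis.repr_self, Finsupp.single_apply]
  rw [h2] at h1
  have h3 : residue _ (algebraMap _ (Localization.AtPrime P)
      ((∑ j, pderiv j (f i) * b (k, j)) - (if i = k then δ else 0))) = 0 := by
    rw [map_sub, map_sub, map_sum, map_sum]
    have h4 : ∀ j, residue _ (algebraMap _ (Localization.AtPrime P) (pderiv j (f i) * b (k, j))) =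
        residue _ (algebraMap _ (Localization.AtPrime P) δ) *
          (residue _ (algebraMap _ (Localization.AtPrime P) (pderiv j (f i))) * D k j) := by
      intro j
      rw [map_mul, map_mul, ← hb (k, j)]
      ring
    rw [Finset.sum_congr rfl fun j _ => h4 j, ← Finset.mul_sum, ← h1]
    split_ifs
    · rw [mul_one, sub_self]
    · rw [mul_zero, map_zero, map_zero, sub_self]
  have h5 := (residue_eq_zero_iff _).1 h3
  rw [← IsLocalization.AtPrime.to_map_mem_maximal_iff (Localization.AtPrime P) P]
  exact h5

end Pool.Agent.H35.DM
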