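import Pool.Agent.H35.DM.Zero

/-!
# Linear subspaces: orders of vanishing and powers of ideals
-/

set_option autoImplicit false

universe u

namespace Pool.Agent.H35.DM

open MvPolynomial Pool.Agent.Chud Pool.Agent.H580C Pool.Agent.H737R3

/-- coordinates adapted to a subspace -/
theorem exists_coord {K : Type u} [Field K] {n : ℕ} (W : Submodule K (Fin (n + 1) → K)) (h : ℕ)
    (hW : n + 1 ≤ Module.finrank K W + h) :
    ∃ (e : (Fin (n + 1) → K) ≃ₗ[K] (Fin (n + 1) → K)) (T : Finset (Fin (n + 1))),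
      T.card ≤ h ∧ ∀ u, e u ∈ W ↔ ∀ i ∈ T, u i = 0 := by
  classical
  obtain ⟨W', hc⟩ := Submodule.exists_isCompl W
  have hfin : Module.finrank K W + Module.finrank K W' = n + 1 := by
    have := Submodule.finrank_add_eq_of_isCompl hc
    rw [this]
    simp
  obtain ⟨σ⟩ : Nonempty (Fin (Module.finrank K W) ⊕ Fin (Module.finrank K W') ≃ Fin (n + 1)) := by
    refine ⟨Fintype.equivOfCardEq ?_⟩
    simp [hfin]
  let eW : W ≃ₗ[K] (Fin (Module.finrank K W) → K) :=
    LinearEquiv.ofFinrankEq _ _ (by simp)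
  let eW' : W' ≃ₗ[K] (Fin (Module.finrank K W') → K) :=
    LinearEquiv.ofFinrankEq _ _ (by simp)
  let e : (Fin (n + 1) → K) ≃ₗ[K] (Fin (n + 1) → K) :=
    (LinearEquiv.funCongrLeft K K σ).trans
      ((LinearEquiv.sumArrowLequivProdArrow _ _ K K).trans
        ((LinearEquiv.prodCongr eW.symm eW'.symm).trans (Submodule.prodEquivOfIsCompl W W' hc)))
  have he : ∀ u, e u = (eW.symm (fun i => u (σ (Sum.inl i))) : Fin (n + 1) → K) +
      (eW'.symm (fun i => u (σ (Sum.inr i))) : Fin (n + 1) → K) := by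
    intro u
    rfl
  refine ⟨e, Finset.univ.image (fun i => σ (Sum.inr i)), ?_, ?_⟩
  · refine Finset.card_image_le.trans ?_
    simp
    omega
  · intro u
    have h1 : e u ∈ W ↔ (eW'.symm (fun i => u (σ (Sum.inr i))) : Fin (n + 1) → K) = 0 := by
      rw [he]
      rw [Submodule.add_mem_iff_right _ (Submodule.coe_mem _)]
      constructor
      · intro h
        have := Submodule.disjoint_def.1 hc.disjoint _ h (Submodule.coe_mem _)
        exact this
      · intro h
        rw [h]
        exact Submodule.zero_mem _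
    rw [h1, ZeroMemClass.coe_eq_zero, LinearEquiv.map_eq_zero_iff]
    constructor
    · intro h i hi
      obtain ⟨j, -, rfl⟩ := Finset.mem_image.1 hi
      exact congrFun h j
    · intro h
      funext j
      exact h _ (Finset.mem_image_of_mem _ (Finset.mem_univ j))

section

variable {K : Type u} [Field K] {n : ℕ}

/-- polynomials whose monomials have a large degree in the variables of `T` -/
theorem mem_pow_of_support (T : Finset (Fin (n + 1))) {F : MvPolynomial (Fin (n + 1)) K} {m : ℕ}
    (h : ∀ c ∈ F.support, m ≤ ∑ i ∈ T, c i) :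
    F ∈ (Ideal.span ((X : Fin (n + 1) → MvPolynomial (Fin (n + 1)) K) '' T)) ^ m := by
  classical
  rw [F.as_sum]
  apply Ideal.sum_mem
  intro c hc
  rw [monomial_eq, Finsupp.prod_fintype _ _ (by simp), ← Finset.prod_mul_prod_compl T]
  apply Ideal.mul_mem_left
  apply Ideal.mul_mem_right
  have h1 : ∏ i ∈ T, (X i : MvPolynomial (Fin (n + 1)) K) ^ c i ∈
      ∏ i ∈ T, (Ideal.span ((X : Fin (n + 1) → MvPolynomial (Fin (n + 1)) K) '' T)) ^ (c i) := by
    apply Ideal.prod_mem_prod
    intro i hi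
    exact Ideal.pow_mem_pow (Ideal.subset_span (Set.mem_image_of_mem _ (Finset.mem_coe.2 hi))) _
  rw [Finset.prod_pow_eq_pow_sum] at h1
  exact Ideal.pow_le_pow_right (h c hc) h1

/-- polynomials which vanish on a coordinate subspace -/
theorem mem_of_vanish [Infinite K] (T : Finset (Fin (n + 1))) {P : MvPolynomial (Fin (n + 1)) K}
    (h : ∀ u : Fin (n + 1) → K, (∀ i ∈ T, u i = 0) → eval u P = 0) :
    P ∈ Ideal.span ((X : Fin (n + 1) → MvPolynomial (Fin (n + 1)) K) '' T) := by
  classical
  let g : MvPolynomial (Fin (n + 1)) K →ₐ[K] MvPolynomial (Fin (n + 1)) K :=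
    aeval (fun i => if i ∈ T then 0 else X i)
  have hg : g P = 0 := by
    apply MvPolynomial.funext
    intro u
    rw [map_zero]
    have h1 : eval u (g P) = eval (fun i => if i ∈ T then 0 else u i) P := by
      have h2 : ((aeval u : MvPolynomial (Fin (n + 1)) K →ₐ[K] K)).comp g =
          aeval (fun i => if i ∈ T then 0 else u i) := by
        apply MvPolynomial.algHom_ext
        intro i
        simp only [AlgHom.comp_apply, g, aeval_X]
        split_ifs <;> simp
      have := DFunLike.congr_fun h2 P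
      rw [AlgHom.comp_apply] at this
      simpa [aeval_eq_eval] using this
    rw [h1]
    exact h _ fun i hi => if_pos hi
  have h3 : ∀ Q : MvPolynomial (Fin (n + 1)) K,
      Ideal.Quotient.mk (Ideal.span ((X : Fin (n + 1) → MvPolynomial (Fin (n + 1)) K) '' T)) (g Q) =
      Ideal.Quotient.mk _ Q := by
    intro Q
    have h4 : (Ideal.Quotient.mkₐ K
        (Ideal.span ((X : Fin (n + 1) → MvPolynomial (Fin (n + 1)) K) '' T))).comp g =
        Ideal.Quotient.mkₐ K _ := by
      apply MvPolynomial.algHom_ext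
      intro i
      simp only [AlgHom.comp_apply, g, aeval_X]
      split_ifs with hi
      · rw [map_zero]
        symm
        rw [Ideal.Quotient.mkₐ_eq_mk, Ideal.Quotient.eq_zero_iff_mem]
        exact Ideal.subset_span (Set.mem_image_of_mem _ (Finset.mem_coe.2 hi))
      · rfl
    exact DFunLike.congr_fun h4 Q
  rw [← Ideal.Quotient.eq_zero_iff_mem, ← h3 P, hg, map_zero]

/-- orders along coordinate subspaces -/
theorem mem_pow_of_order [Infinite K] (T : Finset (Fin (n + 1)))
    {F : MvPolynomial (Fin (n + 1)) K} {m : ℕ}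
    (h : ∀ u : Fin (n + 1) → K, (∀ i ∈ T, u i = 0) → F ∈ mI u ^ m) :
    F ∈ (Ideal.span ((X : Fin (n + 1) → MvPolynomial (Fin (n + 1)) K) '' T)) ^ m := by
  classical
  apply mem_pow_of_support
  intro c hc
  by_contra hcon
  push Not at hcon
  set b : Fin (n + 1) →₀ ℕ := Finsupp.equivFunOnFinite.symm (fun i => if i ∈ T then c i else 0)
    with hb
  have hbi : ∀ i, b i = if i ∈ T then c i else 0 := fun i => rfl
  have hbd : b.degree = ∑ i ∈ T, c i := by
    rw [Finsupp.degree_eq_sum]
    simp only [hbi]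
    rw [Finset.sum_ite_mem]
    simp
  have hvan : ∀ u : Fin (n + 1) → K, (∀ i ∈ T, u i = 0) → eval u (hd b F) = 0 := by
    intro u hu
    exact ((t_HV K (n + 1) u F).2 m).1 (h u hu) b (by omega)
  have h1 := mem_of_vanish T hvan
  rw [mem_ideal_span_X_image] at h1
  have hle : b ≤ c := by
    intro i
    rw [hbi]
    split_ifs
    · exact le_rfl
    · exact Nat.zero_le _
  have h2 : c - b ∈ (hd b F).support := by
    rw [mem_support_iff, t_HC K (n + 1) b (c - b) F, tsub_add_cancel_of_le hle]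
    have h3 : ∏ i, ((c - b) i + b i).choose (b i) = 1 := by
      apply Finset.prod_eq_one
      intro i _
      rw [Finsupp.tsub_apply, hbi]
      split_ifs
      · simp
      · simp
    rw [h3]
    simpa using mem_support_iff.1 hc
  obtain ⟨i, hi, hne⟩ := h1 _ h2
  apply hne
  rw [Finsupp.tsub_apply, hbi, if_pos (Finset.mem_coe.1 hi)]
  simp

/-- **Orders along a linear subspace**: the subspace `W` of codimension at most `h` is cut out by
`h` linear forms, and polynomials vanishing to order at least `m` on `W` lie in the `m`-th power of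
the ideal generated by them. -/
theorem exists_forms [Infinite K] (W : Submodule K (Fin (n + 1) → K)) (h : ℕ)
    (hW : n + 1 ≤ Module.finrank K W + h) :
    ∃ l : Fin h → MvPolynomial (Fin (n + 1)) K,
      (∀ i, (l i).IsHomogeneous 1 ∧ ∀ v ∈ W, eval v (l i) = 0) ∧
      ∀ (F : MvPolynomial (Fin (n + 1)) K) (m : ℕ), (∀ v ∈ W, F ∈ mI v ^ m) →
        F ∈ (Ideal.span (Set.range l)) ^ m := by
  classical
  obtain ⟨e, T, hT, he⟩ := exists_coord W h hW
  obtain ⟨s1, s2, s3, s4, -, s6⟩ := t_SU K (n + 1) e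
  obtain ⟨r1, r2, r3, r4, -, r6⟩ := t_SU K (n + 1) e.symm
  let ρ := T.equivFin
  let l : Fin h → MvPolynomial (Fin (n + 1)) K := fun i =>
    if hi : (i : ℕ) < T.card then sub e.symm (X (ρ.symm ⟨i, hi⟩ : T)) else 0
  refine ⟨l, ?_, ?_⟩
  · intro i
    simp only [l]
    split_ifs with hi
    · refine ⟨r2 _ 1 (isHomogeneous_X _ _), fun v hv => ?_⟩
      rw [r3, eval_X]
      have h1 : e (e.symm v) ∈ W := by rwa [LinearEquiv.apply_symm_apply]
      exact (he _).1 h1 _ (Subtype.mem _)
    · exact ⟨isHomogeneous_zero _ _ _, fun v _ => map_zero _⟩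
  · intro F m hF
    have h1 : sub e F ∈ (Ideal.span ((X : Fin (n + 1) → MvPolynomial (Fin (n + 1)) K) '' T)) ^ m := by
      apply mem_pow_of_order
      intro u hu
      rw [s4]
      exact hF _ ((he u).2 hu)
    have h2 : sub e.symm (sub e F) ∈ Ideal.map (sub e.symm).toRingHom
        ((Ideal.span ((X : Fin (n + 1) → MvPolynomial (Fin (n + 1)) K) '' T)) ^ m) :=
      Ideal.mem_map_of_mem _ h1
    rw [s6, Ideal.map_pow] at h2
    refine Ideal.pow_right_mono ?_ m h2
    rw [Ideal.map_span, Ideal.span_le]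
    rintro _ ⟨_, ⟨i, hi, rfl⟩, rfl⟩
    have hi' : i ∈ T := Finset.mem_coe.1 hi
    have hlt : ((ρ ⟨i, hi'⟩ : Fin T.card) : ℕ) < h := lt_of_lt_of_le (Fin.is_lt _) hT
    refine Ideal.subset_span ⟨⟨(ρ ⟨i, hi'⟩ : Fin T.card), hlt⟩, ?_⟩
    simp only [l]
    rw [dif_pos (Fin.is_lt _)]
    simp

/-- forms at the origin -/
theorem zero_order {F : MvPolynomial (Fin (n + 1)) K} {d m : ℕ} (hF : F.IsHomogeneous d)
    (w : Fin (n + 1) → K) (h : F ∈ mI w ^ m) : F ∈ mI (0 : Fin (n + 1) → K) ^ m := by
  rcases eq_or_ne F 0 with rfl | hF0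
  · exact Ideal.zero_mem _
  have h1 : m ≤ d := by
    have h2 := (mem_mI_pow_iff w hF0 m).1 h
    have h3 := mu_le_totalDegree w hF0
    rw [hF.totalDegree hF0] at h3
    omega
  rw [(t_HV K (n + 1) 0 F).2 m]
  intro b hb
  have h4 := p_HH K (n + 1) b d F hF
  have h5 : coeff 0 (hd b F) = 0 := by
    apply h4.coeff_eq_zero
    simp
    omega
  have h6 : eval (0 : Fin (n + 1) → K) (hd b F) = coeff 0 (hd b F) := by
    rw [MvPolynomial.eval_zero, MvPolynomial.constantCoeff_eq]
  rw [h6, h5]

end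

end Pool.Agent.H35.DM
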