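import Pool.Agent.H35.DM.ZN

/-!
# Symbolic powers of homogeneous prime ideals
-/

set_option autoImplicit false

universe u

namespace Pool.Agent.H35.DM

open MvPolynomial Pool.Agent.Chud Pool.Agent.H580C Pool.Agent.H737R3

/-- The symbolic power `P^(m)` of a prime ideal `P`: the polynomials `F` such that `t F ∈ P ^ m` for
some `t ∉ P` (these form an ideal if `P` is prime). -/
noncomputable def symb {K : Type u} [Field K] {N : ℕ} (P : Ideal (MvPolynomial (Fin N) K)) (m : ℕ) :
    Ideal (MvPolynomial (Fin N) K) :=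
  Ideal.span {F | ∃ t, t ∉ P ∧ t * F ∈ P ^ m}

section

variable {K : Type u} [Field K] [IsAlgClosed K] {N : ℕ} (P : Ideal (MvPolynomial (Fin N) K))
  [hPp : P.IsPrime]

theorem le_mI {v : Fin N → K} (hv : v ∈ Zer P) : P ≤ mI v := fun g hg => hv g hg

omit [IsAlgClosed K] hPp in
/-- orders are determined outside of the zeros of `t` -/
theorem order_of_mul {v : Fin N → K} {t F : MvPolynomial (Fin N) K} {m : ℕ} (ht : eval v t ≠ 0)
    (h : t * F ∈ mI v ^ m) : F ∈ mI v ^ m := by
  rcases eq_or_ne F 0 with rfl | hF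
  · exact Ideal.zero_mem _
  have ht0 := ne_of_eval_ne ht
  rw [mem_mI_pow_iff v (mul_ne_zero ht0 hF), mu_mul v ht0 hF, mu_of_eval_ne ht, zero_add] at h
  rwa [mem_mI_pow_iff v hF]

/-- polynomials with large order on a dense open subset -/
theorem hd_mem_of_dense {t F : MvPolynomial (Fin N) K} {m : ℕ} (ht : t ∉ P)
    (h : ∀ v ∈ Zer P, eval v t ≠ 0 → F ∈ mI v ^ m) (b : Fin N →₀ ℕ) (hb : b.degree < m) :
    hd b F ∈ P := by
  have h1 : t * hd b F ∈ P := by
    apply null P
    intro v hv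
    rw [map_mul]
    by_cases htv : eval v t = 0
    · rw [htv, zero_mul]
    · rw [((t_HV K N v F).2 m).1 (h v hv htv) b hb, mul_zero]
  exact (hPp.mem_or_mem h1).resolve_left ht

theorem order_of_hd {F : MvPolynomial (Fin N) K} {m : ℕ}
    (h : ∀ b : Fin N →₀ ℕ, b.degree < m → hd b F ∈ P) : ∀ v ∈ Zer P, F ∈ mI v ^ m := by
  intro v hv
  rw [(t_HV K N v F).2 m]
  exact fun b hb => hv _ (h b hb)

/-- **Zariski–Nagata**: the symbolic powers consist of the polynomials which vanish to order at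
least `m` at all zeros of `P`. -/
theorem mem_symb_iff (m : ℕ) (F : MvPolynomial (Fin N) K) :
    F ∈ symb P m ↔ ∀ v ∈ Zer P, F ∈ mI v ^ m := by
  constructor
  · intro hF v hv
    have h1 : symb P m ≤ mI v ^ m := by
      unfold symb
      rw [Ideal.span_le]
      rintro G ⟨t, ht, htG⟩
      refine order_of_hd P (fun b hb => hd_mem_of_dense P ht (fun w hw htw => ?_) b hb) v hv
      exact order_of_mul htw (Ideal.pow_right_mono (le_mI P hw) m htG)
    exact h1 hF
  · intro h
    obtain ⟨n, hn⟩ : ∃ n : ℕ, P.height ≤ n := by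
      have : P.FiniteHeight := inferInstance
      obtain ⟨n, hn⟩ := ENat.ne_top_iff_exists.1 (Ideal.height_ne_top hPp.ne_top)
      exact ⟨n, hn.symm.le⟩
    obtain ⟨f, s, hs, hf, hsf⟩ := exists_unif P n hn
    refine Ideal.subset_span ⟨s ^ m, fun hmem => hs (hPp.mem_of_pow_mem _ hmem), ?_⟩
    refine Ideal.pow_right_mono ?_ m (hsf F m h)
    rw [Ideal.span_le]
    rintro _ ⟨i, rfl⟩
    exact hf i

end

section

variable {K : Type u} [Field K] {n : ℕ}

/-- Hasse derivatives and homogeneous components -/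
theorem component_hd (b : Fin (n + 1) →₀ ℕ) (F : MvPolynomial (Fin (n + 1)) K) (e : ℕ) :
    homogeneousComponent e (hd b F) = hd b (homogeneousComponent (e + b.degree) F) := by
  ext m
  rw [coeff_homogeneousComponent, t_HC K (n + 1) b m F, t_HC K (n + 1) b m,
    coeff_homogeneousComponent]
  have h1 : (m + b).degree = m.degree + b.degree := map_add _ _ _
  rw [h1]
  by_cases h : m.degree = e
  · rw [if_pos h, if_pos (by omega)]
  · rw [if_neg h, if_neg (by omega), mul_zero]

theorem hd_eq_zero_of_lt (b : Fin (n + 1) →₀ ℕ) {F : MvPolynomial (Fin (n + 1)) K} {d : ℕ}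
    (hF : F.IsHomogeneous d) (h : d < b.degree) : hd b F = 0 := by
  ext m
  rw [t_HC K (n + 1) b m F, coeff_zero, hF.coeff_eq_zero, mul_zero]
  have h1 : (m + b).degree = m.degree + b.degree := map_add _ _ _
  rw [h1]
  omega

/-- **The symbolic powers of a homogeneous prime ideal of height at most `h`.** -/
theorem symb_fam [IsAlgClosed K] (P : Ideal (MvPolynomial (Fin (n + 1)) K)) [hPp : P.IsPrime]
    (h : ℕ) (hP : P.height ≤ h) (h0 : P ≠ ⊥) (hX : ∃ i, (X i : MvPolynomial (Fin (n + 1)) K) ∉ P)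
    (hh : Hom P) : Fam h (symb P) := by
  classical
  obtain ⟨f, s, hs, hf, hsf⟩ := exists_unif P h hP
  obtain ⟨i, hi⟩ := hX
  refine ⟨⟨{v | v ∈ Zer P ∧ v ≠ 0 ∧ eval v s ≠ 0}, ?_, fun u hu => hu.2.1, ?_, ?_⟩, ?_, ?_, ?_, ?_, ?_⟩
  · by_contra hne
    rw [Set.not_nonempty_iff_eq_empty] at hne
    have h1 : s * X i ∈ P := by
      apply null P
      intro v hv
      rw [map_mul, eval_X]
      by_contra hcon
      have h2 : v ∈ {v | v ∈ Zer P ∧ v ≠ 0 ∧ eval v s ≠ 0} := by
        refine ⟨hv, ?_, left_ne_zero_of_mul hcon⟩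
        rintro rfl
        exact right_ne_zero_of_mul hcon rfl
      rw [hne] at h2
      exact h2
    exact (hPp.mem_or_mem h1).elim hs hi
  · intro m F d _ hFu
    rw [mem_symb_iff P m F]
    apply order_of_hd P
    intro b hb
    refine hd_mem_of_dense P (t := s * X i) (fun h1 => (hPp.mem_or_mem h1).elim hs hi) ?_ b hb
    intro v hv hne
    rw [map_mul, eval_X] at hne
    refine hFu v ⟨hv, ?_, left_ne_zero_of_mul hne⟩
    rintro rfl
    exact right_ne_zero_of_mul hne rfl
  · intro m F hF u hu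
    rw [mem_symb_iff P m F] at hF
    refine dat_iff.2 ⟨s ^ m, f, ?_, fun i => hu.1 _ (hf i), hsf F m hF⟩
    rw [map_pow]
    exact pow_ne_zero _ hu.2.2
  · intro m F hF d
    rw [mem_symb_iff P m F] at hF
    rw [mem_symb_iff P m]
    apply order_of_hd P
    intro b hb
    have h1 : hd b F ∈ P := hd_mem_of_dense P (t := 1) (fun h1 => hPp.ne_top
      ((Ideal.eq_top_iff_one P).2 h1)) (fun v hv _ => hF v hv) b hb
    rcases Nat.lt_or_ge d b.degree with hd' | hd'
    · rw [hd_eq_zero_of_lt b (homogeneousComponent_isHomogeneous d F) hd']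
      exact Ideal.zero_mem _
    · obtain ⟨e, rfl⟩ := Nat.exists_eq_add_of_le' hd'
      rw [← component_hd]
      exact hh _ h1 e
  · intro a b F hF G hG
    rw [mem_symb_iff P] at hF hG ⊢
    intro v hv
    rw [pow_add]
    exact Ideal.mul_mem_mul (hF v hv) (hG v hv)
  · intro a b hab F hF
    rw [mem_symb_iff P] at hF ⊢
    exact fun v hv => Ideal.pow_le_pow_right hab (hF v hv)
  · obtain ⟨F, hF, hF0⟩ := Submodule.exists_mem_ne_zero_of_ne_bot h0
    refine ⟨F, ?_, hF0⟩
    rw [mem_symb_iff P]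
    intro v hv
    rw [pow_one]
    exact hv F hF
  · rw [eq_top_iff]
    intro F _
    rw [mem_symb_iff P]
    intro v _
    rw [pow_zero, Ideal.one_eq_top]
    exact Submodule.mem_top

end

end Pool.Agent.H35.DM
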