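import Pool.Agent.H35.DM.Arr

/-!
# Arrangements of linear subspaces
-/

set_option autoImplicit false

universe u

namespace Pool.Agent.H35.DM

open MvPolynomial Pool.Agent.Chud Pool.Agent.H580C Pool.Agent.H737R3 Filter Topology

variable {K : Type u} [Field K] {n : ℕ}

/-- The homogeneous ideal of the linear subspace of projective space which is given by the
subspace `W` of `K ^ (n + 1)`: the ideal generated by the linear forms which vanish on `W`. -/
noncomputable def linSub (W : Submodule K (Fin (n + 1) → K)) :
    Ideal (MvPolynomial (Fin (n + 1)) K) :=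
  Ideal.span {l | l.IsHomogeneous 1 ∧ ∀ v ∈ W, eval v l = 0}

attribute [local instance] MvPolynomial.gradedAlgebra in
theorem linSub_hom (W : Submodule K (Fin (n + 1) → K)) (m : ℕ) : Hom (linSub W ^ m) := by
  have h0 : (linSub W).IsHomogeneous (homogeneousSubmodule (Fin (n + 1)) K) := by
    unfold linSub
    apply Ideal.homogeneous_span
    rintro l ⟨hl, -⟩
    exact ⟨1, hl⟩
  have h1 : (linSub W ^ m).IsHomogeneous (homogeneousSubmodule (Fin (n + 1)) K) := by
    induction m with
    | zero =>
      rw [pow_zero, Ideal.one_eq_top]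
      exact Ideal.IsHomogeneous.top _
    | succ m ih =>
      rw [pow_succ]
      exact ih.mul h0
  intro F hF d
  exact homogeneousComponent_mem_of_mem h1 hF d

/-- the powers of the ideals of linear subspaces -/
theorem linSub_fam [Infinite K] (W : Submodule K (Fin (n + 1) → K)) (h : ℕ) (hW0 : W ≠ ⊥)
    (hW1 : W ≠ ⊤) (hW : n + 1 ≤ Module.finrank K W + h) : Fam h (fun m => linSub W ^ m) := by
  classical
  obtain ⟨l, hl1, hl2⟩ := exists_forms W h hW
  have hle : linSub W ≤ Ideal.span (Set.range l) := by
    unfold linSub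
    rw [Ideal.span_le]
    rintro g ⟨-, hg⟩
    have := hl2 g 1 (fun v hv => by
      rw [pow_one]
      exact hg v hv)
    rwa [pow_one] at this
  have hge : Ideal.span (Set.range l) ≤ linSub W := by
    rw [Ideal.span_le]
    rintro _ ⟨i, rfl⟩
    exact Ideal.subset_span (hl1 i)
  refine ⟨⟨{u | u ∈ W ∧ u ≠ 0}, ?_, fun u hu => hu.2, ?_, ?_⟩, fun m => linSub_hom W m, ?_, ?_, ?_, ?_⟩
  · obtain ⟨u, hu, hu0⟩ := (Submodule.ne_bot_iff _).1 hW0
    exact ⟨u, hu, hu0⟩
  · intro m F d hF hFu
    refine Ideal.pow_right_mono hge m (hl2 F m fun v hv => ?_)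
    by_cases hv0 : v = 0
    · subst hv0
      obtain ⟨u, hu, hu0⟩ := (Submodule.ne_bot_iff _).1 hW0
      exact zero_order hF u (hFu u ⟨hu, hu0⟩)
    · exact hFu v ⟨hv, hv0⟩
  · intro m F hF u hu
    refine dat_iff.2 ⟨1, l, by simp, fun i => (hl1 i).2 u hu.1, ?_⟩
    rw [one_mul]
    exact Ideal.pow_right_mono hle m hF
  · intro a b F hF G hG
    beta_reduce
    rw [pow_add]
    exact Ideal.mul_mem_mul hF hG
  · intro a b hab
    exact Ideal.pow_le_pow_right hab
  · obtain ⟨f, hf0, hf⟩ := Submodule.exists_le_ker_of_lt_top W (lt_top_iff_ne_top.2 hW1)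
    refine ⟨∑ i, C (f (Pi.single i 1)) * X i, ?_, ?_⟩
    · beta_reduce
      rw [pow_one]
      refine Ideal.subset_span ⟨?_, fun v hv => ?_⟩
      · apply IsHomogeneous.sum
        intro i _
        exact (isHomogeneous_C_mul_X _ _)
      · rw [map_sum]
        have h1 : f v = 0 := hf hv
        rw [LinearMap.pi_apply_eq_sum_univ f v] at h1
        rw [← h1]
        refine Finset.sum_congr rfl fun i _ => ?_
        rw [map_mul, eval_C, eval_X]
        have h2 : (fun j => if i = j then (1 : K) else 0) = (Pi.single i 1 : Fin (n + 1) → K) := by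
          funext j
          simp [Pi.single_apply, eq_comm]
        rw [h2, smul_eq_mul, mul_comm]
    · intro h0
      apply hf0
      apply LinearMap.pi_ext'
      intro i
      ext
      have := congrArg (coeff (Finsupp.single i 1)) h0
      rw [coeff_sum, coeff_zero, Finset.sum_eq_single i] at this
      · rw [coeff_C_mul, coeff_X, if_pos rfl, mul_one] at this
        simpa using this
      · intro j _ hj
        rw [coeff_C_mul, coeff_X, if_neg, mul_zero]
        intro h
        exact hj (Finsupp.single_left_injective one_ne_zero h)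
      · intro h
        exact absurd (Finset.mem_univ _) h
  · beta_reduce
    rw [pow_zero, Ideal.one_eq_top]

end Pool.Agent.H35.DM
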