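import Pool.Agent.H35.DM.Prime
import Pool.Agent.H35.DM.Sub

/-!
# Minimal primes of homogeneous radical ideals, heights, points
-/

set_option autoImplicit false

universe u

namespace Pool.Agent.H35.DM

open MvPolynomial Pool.Agent.Chud Pool.Agent.H580C Pool.Agent.H737R3

variable {K : Type u} [Field K] {n : ℕ}

section graded

attribute [local instance] MvPolynomial.gradedAlgebra

theorem hom_iff (P : Ideal (MvPolynomial (Fin (n + 1)) K)) :
    Hom P ↔ P.IsHomogeneous (homogeneousSubmodule (Fin (n + 1)) K) := by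
  constructor
  · intro h d F hF
    have h1 := h F hF d
    have h2 := MvPolynomial.decomposition.decompose'_apply F d
    rw [← h2] at h1
    exact h1
  · intro h F hF d
    exact homogeneousComponent_mem_of_mem h hF d

/-- the minimal primes of a homogeneous ideal are homogeneous -/
theorem minimalPrimes_hom {I : Ideal (MvPolynomial (Fin (n + 1)) K)} (hI : Hom I)
    {P : Ideal (MvPolynomial (Fin (n + 1)) K)} (hP : P ∈ I.minimalPrimes) : Hom P := by
  rw [hom_iff] at hI ⊢
  have hPp : P.IsPrime := hP.1.1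
  have h1 : (P.homogeneousCore (homogeneousSubmodule (Fin (n + 1)) K)).toIdeal.IsPrime :=
    hPp.homogeneousCore
  have h2 : (P.homogeneousCore (homogeneousSubmodule (Fin (n + 1)) K)).toIdeal ≤ P :=
    Ideal.toIdeal_homogeneousCore_le _ _
  have h3 : I ≤ (P.homogeneousCore (homogeneousSubmodule (Fin (n + 1)) K)).toIdeal := by
    have h4 := Ideal.homogeneousCore_mono (homogeneousSubmodule (Fin (n + 1)) K) hP.1.2
    have h5 := hI.toIdeal_homogeneousCore_eq_self
    rw [← h5]
    exact h4
  have h6 := hP.2 ⟨h1, h3⟩ h2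
  have h7 : (P.homogeneousCore (homogeneousSubmodule (Fin (n + 1)) K)).toIdeal = P :=
    le_antisymm h2 h6
  rw [← h7]
  exact (P.homogeneousCore (homogeneousSubmodule (Fin (n + 1)) K)).isHomogeneous

end graded

/-- a homogeneous prime ideal consists of polynomials without constant term -/
theorem constantCoeff_of_hom {P : Ideal (MvPolynomial (Fin (n + 1)) K)} (hP : P ≠ ⊤) (hh : Hom P)
    {F : MvPolynomial (Fin (n + 1)) K} (hF : F ∈ P) : constantCoeff F = 0 := by
  by_contra hne
  apply hP
  have h1 := hh F hF 0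
  rw [homogeneousComponent_zero] at h1
  rw [Ideal.eq_top_iff_one]
  have h2 : (1 : MvPolynomial (Fin (n + 1)) K) = C (coeff 0 F)⁻¹ * C (coeff 0 F) := by
    rw [← C_mul, inv_mul_cancel₀, C_1]
    exact hne
  rw [h2]
  exact Ideal.mul_mem_left _ _ h1

theorem ker_constantCoeff_mem {F : MvPolynomial (Fin (n + 1)) K} (hF : constantCoeff F = 0)
    {P : Ideal (MvPolynomial (Fin (n + 1)) K)} (hP : ∀ i, (X i : MvPolynomial (Fin (n + 1)) K) ∈ P) :
    F ∈ P := by
  have h1 : F ∈ Ideal.span ((X : Fin (n + 1) → MvPolynomial (Fin (n + 1)) K) '' Set.univ) := by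
    rw [mem_ideal_span_X_image]
    intro m hm
    by_contra hcon
    push Not at hcon
    have h2 : m = 0 := by
      ext i
      exact hcon i (Set.mem_univ _)
    rw [h2, mem_support_iff] at hm
    exact hm hF
  refine (Ideal.span_le.2 ?_) h1
  rintro _ ⟨i, -, rfl⟩
  exact hP i

/-- the minimal primes of a radical homogeneous ideal which does not contain all variables -/
theorem minimalPrimes_X {I : Ideal (MvPolynomial (Fin (n + 1)) K)} (hI : Hom I)
    (hrad : I.IsRadical) (hX : ∃ i, (X i : MvPolynomial (Fin (n + 1)) K) ∉ I)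
    {P : Ideal (MvPolynomial (Fin (n + 1)) K)} (hP : P ∈ I.minimalPrimes) :
    ∃ i, (X i : MvPolynomial (Fin (n + 1)) K) ∉ P := by
  by_contra hcon
  push Not at hcon
  obtain ⟨i, hi⟩ := hX
  apply hi
  have h1 : I = sInf I.minimalPrimes := by
    rw [Ideal.sInf_minimalPrimes, hrad.radical]
  rw [h1, Ideal.mem_sInf]
  intro Q hQ
  have hQp : Q.IsPrime := hQ.1.1
  have h2 : Q ≤ P := fun F hF =>
    ker_constantCoeff_mem (constantCoeff_of_hom hQp.ne_top (minimalPrimes_hom hI hQ) hF) hcon
  have h3 : P ≤ Q := hP.2 hQ.1 h2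
  exact h3 (hcon i)

/-- homogeneous primes other than the irrelevant ideal have height at most `n` -/
theorem height_le {P : Ideal (MvPolynomial (Fin (n + 1)) K)} [hPp : P.IsPrime] (hh : Hom P)
    (hX : ∃ i, (X i : MvPolynomial (Fin (n + 1)) K) ∉ P) : P.height ≤ n := by
  let M : Ideal (MvPolynomial (Fin (n + 1)) K) := RingHom.ker constantCoeff
  have hM : M.IsPrime := RingHom.ker_isPrime _
  obtain ⟨i, hi⟩ := hX
  have h1 : P < M := by
    refine lt_of_le_of_ne (fun F hF => constantCoeff_of_hom hPp.ne_top hh hF) ?_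
    rintro rfl
    apply hi
    change constantCoeff (X i) = 0
    simp
  have h2 := Ideal.height_add_one_le_of_lt_of_isPrime h1
  have h3 : (M.height : WithBot ℕ∞) ≤ ringKrullDim (MvPolynomial (Fin (n + 1)) K) :=
    Ideal.height_le_ringKrullDim_of_isPrime
  rw [MvPolynomial.ringKrullDim_of_isNoetherianRing, ringKrullDim_eq_zero_of_field] at h3
  have h4 : (M.height : WithBot ℕ∞) ≤ ((n + 1 : ℕ) : WithBot ℕ∞) := by
    simpa using h3
  have h5 : M.height ≤ (n + 1 : ℕ) := by exact_mod_cast h4
  have h6 : P.height + 1 ≤ (n : ℕ∞) + 1 := h2.trans (by exact_mod_cast h5)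
  exact (ENat.add_le_add_iff_right ENat.one_ne_top).1 h6

/-- the ideals of points -/
theorem point_fam [Infinite K] (v : Fin (n + 1) → K) (hv : v ≠ 0) (hn : 1 ≤ n) :
    Fam n (fun m => linI v ^ m) := by
  have h1 : linI v = linSub (Submodule.span K {v}) := by
    unfold linI linSub
    congr 1
    ext l
    constructor
    · rintro ⟨hl, hlv⟩
      refine ⟨hl, fun w hw => ?_⟩
      obtain ⟨c, rfl⟩ := Submodule.mem_span_singleton.1 hw
      have h2 : eval (c • v) l = c ^ 1 * eval v l := eval_homog c v hl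
      rw [h2, hlv, mul_zero]
    · rintro ⟨hl, hlv⟩
      exact ⟨hl, hlv v (Submodule.mem_span_singleton_self v)⟩
  rw [h1]
  have hfin : Module.finrank K (Submodule.span K {v}) = 1 := finrank_span_singleton hv
  refine linSub_fam _ n ?_ ?_ (by rw [hfin]; omega)
  · intro h
    exact hv (by simpa using h)
  · intro h
    have := congrArg (fun W : Submodule K (Fin (n + 1) → K) => Module.finrank K W) h
    rw [hfin, finrank_top] at this
    simp at this
    omega

end Pool.Agent.H35.DM
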