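import Pool.Agent.H35.DM.Jac
import Pool.Agent.H35.DM.Arr

/-!
# Orders of vanishing along a variety and symbolic powers

The theorem of Zariski and Nagata for prime ideals of polynomial rings over algebraically closed
fields, with uniform denominators.
-/

set_option autoImplicit false

universe u

namespace Pool.Agent.H35.DM

open MvPolynomial Pool.Agent.Chud Pool.Agent.H580C Pool.Agent.H737R3

section line

variable {K : Type u} [Field K] {N : ℕ}

/-- restriction to the line through `v` in the direction `y` -/
noncomputable def line (v y : Fin N → K) : MvPolynomial (Fin N) K →ₐ[K] Polynomial K :=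
  aeval (fun j => Polynomial.C (v j) + Polynomial.C (y j) * Polynomial.X)

theorem line_coeff (v y : Fin N → K) (g : MvPolynomial (Fin N) K) :
    (line v y g).coeff 0 = eval v g ∧
      (line v y g).coeff 1 = ∑ j, eval v (pderiv j g) * y j := by
  classical
  induction g using MvPolynomial.induction_on with
  | C a =>
    have h1 : line v y (C a) = Polynomial.C a := by
      simp [line]
    rw [h1]
    simp [Polynomial.coeff_C]
  | add p q hp hq =>
    rw [map_add, Polynomial.coeff_add, Polynomial.coeff_add, hp.1, hp.2, hq.1, hq.2]
    refine ⟨by rw [map_add], ?_⟩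
    rw [← Finset.sum_add_distrib]
    refine Finset.sum_congr rfl fun j _ => ?_
    rw [map_add, map_add, add_mul]
  | mul_X p i hp =>
    have h1 : line v y (X i) = Polynomial.C (v i) + Polynomial.C (y i) * Polynomial.X := by
      simp [line]
    have h2 : (line v y (X i)).coeff 0 = v i := by
      rw [h1]
      simp
    have h3 : (line v y (X i)).coeff 1 = y i := by
      rw [h1]
      simp [Polynomial.coeff_C]
    rw [map_mul, Polynomial.mul_coeff_zero, Polynomial.mul_coeff_one, hp.1, hp.2, h2, h3]
    refine ⟨by simp, ?_⟩
    have h4 : ∀ j, eval v (pderiv j (p * X i)) * y j =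
        v i * (eval v (pderiv j p) * y j) + (if j = i then eval v p * y i else 0) := by
      intro j
      rw [Derivation.leibniz, map_add, smul_eq_mul, smul_eq_mul, map_mul, map_mul, eval_X]
      split_ifs with hji
      · subst hji
        rw [pderiv_X_self, map_one]
        ring
      · rw [pderiv_X_of_ne (Ne.symm hji), map_zero]
        ring
    rw [Finset.sum_congr rfl fun j _ => h4 j, Finset.sum_add_distrib, Finset.sum_ite_eq',
      ← Finset.mul_sum]
    simp
    ring

theorem line_dvd (v y : Fin N → K) {g : MvPolynomial (Fin N) K} {m : ℕ} (hg : g ∈ mI v ^ m) :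
    Polynomial.X ^ m ∣ line v y g := by
  have h1 : mI v ≤ (Ideal.span {(Polynomial.X : Polynomial K)}).comap (line v y).toRingHom := by
    intro a ha
    rw [Ideal.mem_comap, Ideal.mem_span_singleton]
    change Polynomial.X ∣ line v y a
    rw [Polynomial.X_dvd_iff, (line_coeff v y a).1]
    exact ha
  have h2 : line v y g ∈ (Ideal.span {(Polynomial.X : Polynomial K)}) ^ m := by
    have h3 := Ideal.mem_map_of_mem (line v y).toRingHom hg
    rw [Ideal.map_pow] at h3
    exact Ideal.pow_right_mono (Ideal.map_le_iff_le_comap.2 h1) m h3
  rwa [Ideal.span_singleton_pow, Ideal.mem_span_singleton] at h2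

end line

theorem ring_eval {S T ι : Type*} [CommRing S] [CommRing T] (ψ : S →+* T) (x : ι → S)
    (Ψ : MvPolynomial ι S) : ψ (eval x Ψ) = eval (fun i => ψ (x i)) (map ψ Ψ) := by
  rw [eval_map]
  have := eval₂_comp_left ψ (RingHom.id S) x Ψ
  rw [RingHom.comp_id] at this
  exact this

theorem eval_homog {S : Type*} [CommRing S] {c u : ℕ} (t : S) (g : Fin c → S)
    {Ψ : MvPolynomial (Fin c) S} (hΨ : Ψ.IsHomogeneous u) :
    eval (fun i => t * g i) Ψ = t ^ u * eval g Ψ := by
  rw [eval_eq', eval_eq', Finset.mul_sum]
  refine Finset.sum_congr rfl fun d hd => ?_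
  have h1 : d.degree = u := by
    have := hΨ (mem_support_iff.1 hd)
    rwa [Finsupp.degree_eq_weight_one]
  have h2 : ∏ i, (t * g i) ^ d i = t ^ u * ∏ i, g i ^ d i := by
    simp only [mul_pow]
    rw [Finset.prod_mul_distrib, Finset.prod_pow_eq_pow_sum, ← h1, Finsupp.degree_eq_sum]
  rw [h2]
  ring

section

variable {K : Type u} [Field K] [IsAlgClosed K] {N : ℕ}

/-- the zeros of `P` in affine space -/
def Zer (P : Ideal (MvPolynomial (Fin N) K)) : Set (Fin N → K) := {v | ∀ g ∈ P, eval v g = 0}

/-- Nullstellensatz -/
theorem null (P : Ideal (MvPolynomial (Fin N) K)) [hPp : P.IsPrime] {g : MvPolynomial (Fin N) K}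
    (h : ∀ v ∈ Zer P, eval v g = 0) : g ∈ P := by
  have h1 := MvPolynomial.vanishingIdeal_zeroLocus_eq_radical (K := K) P
  rw [hPp.radical] at h1
  rw [← h1]
  intro v hv
  have hv' : v ∈ Zer P := by
    intro g hg
    have := hv g hg
    simpa [aeval_eq_eval] using this
  have := h v hv'
  simpa [aeval_eq_eval] using this

/-- **Zariski–Nagata with uniform denominators.** -/
theorem exists_unif (P : Ideal (MvPolynomial (Fin N) K)) [hPp : P.IsPrime] (h : ℕ)
    (hP : P.height ≤ h) :
    ∃ (f : Fin h → MvPolynomial (Fin N) K) (s : MvPolynomial (Fin N) K), s ∉ P ∧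
      (∀ i, f i ∈ P) ∧ ∀ (F : MvPolynomial (Fin N) K) (m : ℕ),
        (∀ v ∈ Zer P, F ∈ mI v ^ m) → s ^ m * F ∈ (Ideal.span (Set.range f)) ^ m := by
  classical
  obtain ⟨c, f, s, δ, B, hch, hs, hδ, hf, hsf, hB⟩ := exists_jac P h hP
  have main : ∀ (F : MvPolynomial (Fin N) K) (m : ℕ), (∀ v ∈ Zer P, F ∈ mI v ^ m) →
      ∀ u ≤ m, (s * δ) ^ u * F ∈ (Ideal.span (Set.range f)) ^ u := by
    intro F m hF u
    induction u with
    | zero =>
      intro _
      rw [pow_zero, pow_zero, Ideal.one_eq_top]
      exact Submodule.mem_top
    | succ u ih =>
      intro hu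
      have hG := ih (by omega)
      obtain ⟨Φ, hΦh, hΦ⟩ := (Ideal.mem_span_pow_iff_exists_isHomogeneous f _).1 hG
      have hcoef : ∀ β, δ * coeff β Φ ∈ P := by
        intro β
        apply null P
        intro v hv
        rw [map_mul]
        by_cases hδv : eval v δ = 0
        · rw [hδv, zero_mul]
        have hQ : map (eval v) Φ = 0 := by
          apply MvPolynomial.funext
          intro z
          rw [map_zero]
          let y : Fin N → K := fun j => ∑ k, z k * eval v (B k j) / eval v δ
          have hy : ∀ i, ∑ j, eval v (pderiv j (f i)) * y j = z i := by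
            intro i
            have h1 : ∀ k, ∑ j, eval v (pderiv j (f i)) * eval v (B k j) =
                if i = k then eval v δ else 0 := by
              intro k
              have h2 := hv _ (hB i k)
              rw [map_sub, sub_eq_zero, map_sum] at h2
              simp only [map_mul] at h2
              rw [h2]
              split_ifs
              · rfl
              · exact map_zero _
            simp only [y, Finset.mul_sum]
            rw [Finset.sum_comm]
            have h3 : ∀ k, ∑ j, eval v (pderiv j (f i)) * (z k * eval v (B k j) / eval v δ) =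
                z k / eval v δ * (if i = k then eval v δ else 0) := by
              intro k
              rw [← h1 k, Finset.mul_sum]
              refine Finset.sum_congr rfl fun j _ => ?_
              ring
            rw [Finset.sum_congr rfl fun k _ => h3 k]
            simp only [mul_ite, mul_zero]
            rw [Finset.sum_ite_eq Finset.univ i]
            simp only [Finset.mem_univ, if_true]
            field_simp
          have hgi : ∀ i, ∃ g : Polynomial K, line v y (f i) = Polynomial.X * g ∧
              g.coeff 0 = z i := by
            intro i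
            have h4 : Polynomial.X ∣ line v y (f i) := by
              rw [Polynomial.X_dvd_iff, (line_coeff v y (f i)).1]
              exact hv _ (hf i)
            obtain ⟨g, hg⟩ := h4
            refine ⟨g, hg, ?_⟩
            have h5 := (line_coeff v y (f i)).2
            have h5' : (Polynomial.X * g).coeff 1 = g.coeff 0 := Polynomial.coeff_X_mul g 0
            rw [hg, hy i, h5'] at h5
            exact h5
          choose g hg hgz using hgi
          have h6 : line v y ((s * δ) ^ u * F) =
              Polynomial.X ^ u * eval g (map (line v y).toRingHom Φ) := by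
            rw [← hΦ]
            have h7 := ring_eval (line v y).toRingHom f Φ
            have h8 : (fun i => (line v y).toRingHom (f i)) = fun i => Polynomial.X * g i := by
              funext i
              exact hg i
            rw [h8] at h7
            rw [← eval_homog Polynomial.X g (hΦh.map _)]
            exact h7
          have h9 : Polynomial.X ^ (u + 1) ∣ line v y ((s * δ) ^ u * F) :=
            line_dvd v y (Ideal.mul_mem_left _ _ (Ideal.pow_le_pow_right hu (hF v hv)))
          rw [h6, pow_succ] at h9
          have h10 : Polynomial.X ∣ eval g (map (line v y).toRingHom Φ) :=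
            (mul_dvd_mul_iff_left (pow_ne_zero u Polynomial.X_ne_zero)).1 h9
          rw [Polynomial.X_dvd_iff] at h10
          have h11 := ring_eval (Polynomial.constantCoeff (R := K)) g
            (map (line v y).toRingHom Φ)
          rw [map_map] at h11
          have h12 : (Polynomial.constantCoeff (R := K)).comp (line v y).toRingHom = eval v := by
            ext x
            · simp [line]
            · simp [line]
          have h13 : (fun i => (Polynomial.constantCoeff (R := K)) (g i)) = z := by
            funext i
            exact hgz i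
          rw [h12, h13] at h11
          rw [← h11]
          exact h10
        have := congrArg (coeff β) hQ
        rw [coeff_map, coeff_zero] at this
        rw [this, mul_zero]
      have hgoal : (s * δ) ^ (u + 1) * F = s * δ * ((s * δ) ^ u * F) := by ring
      rw [hgoal, ← hΦ, eval_eq', Finset.mul_sum, pow_succ']
      apply Ideal.sum_mem
      intro d hd
      have h1 : d.degree = u := by
        have := hΦh (mem_support_iff.1 hd)
        rwa [Finsupp.degree_eq_weight_one]
      have h2 : s * δ * (coeff d Φ * ∏ i, f i ^ d i) =
          (s * (δ * coeff d Φ)) * ∏ i, f i ^ d i := by ring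
      rw [h2]
      refine Ideal.mul_mem_mul (hsf _ (hcoef d)) ?_
      have h3 : ∏ i, f i ^ d i ∈ ∏ i : Fin c, (Ideal.span (Set.range f)) ^ (d i) :=
        Ideal.prod_mem_prod fun i _ =>
          Ideal.pow_mem_pow (Ideal.subset_span (Set.mem_range_self i)) _
      rwa [Finset.prod_pow_eq_pow_sum, ← Finsupp.degree_eq_sum, h1] at h3
  let f' : Fin h → MvPolynomial (Fin N) K := fun i => if hi : (i : ℕ) < c then f ⟨i, hi⟩ else 0
  have hle : Ideal.span (Set.range f) ≤ Ideal.span (Set.range f') := by
    rw [Ideal.span_le]
    rintro _ ⟨i, rfl⟩
    refine Ideal.subset_span ⟨⟨i, lt_of_lt_of_le i.2 hch⟩, ?_⟩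
    simp [f']
  refine ⟨f', s * δ, fun hmem => (hPp.mem_or_mem hmem).elim hs hδ, ?_, fun F m hF => ?_⟩
  · intro i
    simp only [f']
    split_ifs
    · exact hf _
    · exact Ideal.zero_mem _
  · exact Ideal.pow_right_mono hle m (main F m hF m le_rfl)

end

end Pool.Agent.H35.DM
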