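import Pool.Agent.H35.DM.Core

/-!
# Forms which lie locally in high powers of ideals with few generators, all characteristics
-/

set_option autoImplicit false

universe u

namespace Pool.Agent.H35.DM

open MvPolynomial Pool.Agent.Chud Pool.Agent.H580C Pool.Agent.H737R3

theorem exists_lift {K : Type u} [Field K] {N : ℕ} (A : Subring K) (F : MvPolynomial (Fin N) K)
    (hF : ∀ m, coeff m F ∈ A) : ∃ G : MvPolynomial (Fin N) A, map A.subtype G = F := by
  refine ⟨∑ m ∈ F.support, monomial m ⟨coeff m F, hF m⟩, ?_⟩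
  rw [map_sum]
  conv_rhs => rw [← support_sum_monomial_coeff F]
  apply Finset.sum_congr rfl
  intro m _
  rw [map_monomial]
  rfl

theorem eval_map' {A : Type u} [CommRing A] {k : Type*} [Field k] (φ : A →+* k) {N : ℕ}
    (v : Fin N → A) (G : MvPolynomial (Fin N) A) :
    eval (fun i => φ (v i)) (map φ G) = φ (eval v G) := by
  have h3 : (eval (fun i => φ (v i))).comp (map φ) =
      φ.comp (eval v : MvPolynomial (Fin N) A →+* A) := by
    apply MvPolynomial.ringHom_ext
    · intro r
      simp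
    · intro i
      simp
  exact DFunLike.congr_fun h3 G

/-- **The general inequality**, finite sets of points -/
theorem main_finite (K : Type u) [Field K] [IsAlgClosed K]
    (n h a r d : ℕ) (Z : Set (Fin (n + 1) → K)) (τ : (Fin (n + 1) → K) → ℕ)
    (F : MvPolynomial (Fin (n + 1)) K)
    (hh : 1 ≤ h) (hZf : Z.Finite) (hw : ∃ z ∈ Z, 1 ≤ τ z) (hZ0 : ∀ v ∈ Z, v ≠ 0)
    (hlow : LowW Z τ a)
    (hF0 : F ≠ 0) (hFh : F.IsHomogeneous d)
    (hFv : ∀ v ∈ Z, 1 ≤ τ v → Dat h v (r * (τ v + h - 1)) F) :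
    r * (a + h - 1) ≤ d := by
  classical
  obtain ⟨p, hp⟩ := CharP.exists K
  rcases CharP.char_is_prime_or_zero K p with hpp | hp0
  · have : Fact p.Prime := ⟨hpp⟩
    exact charP K p n h a r d Z τ F hh hZf hw hZ0 hlow hF0 hFh hFv
  · subst hp0
    have : CharZero K := CharP.charP_to_charZero K
    have hlow' : LowW ((hZf.toFinset : Finset (Fin (n + 1) → K)) : Set (Fin (n + 1) → K)) τ a := by
      rw [Set.Finite.coe_toFinset]
      exact hlow
    -- the data
    have hdat : ∀ v : Fin (n + 1) → K, ∃ (s : MvPolynomial (Fin (n + 1)) K)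
        (f : Fin h → MvPolynomial (Fin (n + 1)) K)
        (c : (Fin (r * (τ v + h - 1)) → Fin h) → MvPolynomial (Fin (n + 1)) K),
        v ∈ Z → 1 ≤ τ v → (eval v s ≠ 0 ∧ (∀ i, eval v (f i) = 0) ∧
          s * F = ∑ j, c j * ∏ i, f (j i)) := by
      intro v
      by_cases hv : v ∈ Z ∧ 1 ≤ τ v
      · obtain ⟨s, f, c, h1, h2, h3⟩ := hFv v hv.1 hv.2
        exact ⟨s, f, c, fun _ _ => ⟨h1, h2, h3⟩⟩
      · exact ⟨0, 0, 0, fun h1 h2 => absurd ⟨h1, h2⟩ hv⟩
    choose s f c hsfc using hdat
    obtain ⟨p, hp, k', _, _, _, A, φ, -, hL, hZA, hDA, hDφ, hlowT⟩ :=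
      trW K n a 0 hZf.toFinset τ
        ({F} ∪ hZf.toFinset.biUnion (fun v => {s v} ∪ (Finset.univ.image (f v) ∪
          Finset.univ.image (c v))))
        ((hZf.toFinset.biUnion fun v => Finset.univ.image v) ∪
          (F.support.image (fun m => coeff m F) ∪
            hZf.toFinset.image (fun v => eval v (s v)))) hlow'
    have hFA : ∀ m, coeff m F ∈ A := fun m =>
      hL F (Finset.mem_union_left _ (Finset.mem_singleton_self F)) m
    have hvA : ∀ v ∈ Z, ∀ i, v i ∈ A := fun v hv i => hZA v (hZf.mem_toFinset.2 hv) i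
    have hsA : ∀ v ∈ Z, ∀ m, coeff m (s v) ∈ A := fun v hv m =>
      hL (s v) (Finset.mem_union_right _ (Finset.mem_biUnion.2 ⟨v, hZf.mem_toFinset.2 hv,
        Finset.mem_union_left _ (Finset.mem_singleton_self _)⟩)) m
    have hfA : ∀ v ∈ Z, ∀ i m, coeff m (f v i) ∈ A := fun v hv i m =>
      hL (f v i) (Finset.mem_union_right _ (Finset.mem_biUnion.2 ⟨v, hZf.mem_toFinset.2 hv,
        Finset.mem_union_right _ (Finset.mem_union_left _
          (Finset.mem_image_of_mem _ (Finset.mem_univ i)))⟩)) m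
    have hcA : ∀ v ∈ Z, ∀ j m, coeff m (c v j) ∈ A := fun v hv j m =>
      hL (c v j) (Finset.mem_union_right _ (Finset.mem_biUnion.2 ⟨v, hZf.mem_toFinset.2 hv,
        Finset.mem_union_right _ (Finset.mem_union_right _
          (Finset.mem_image_of_mem _ (Finset.mem_univ j)))⟩)) m
    set FA : MvPolynomial (Fin (n + 1)) A := ∑ m ∈ F.support, monomial m ⟨coeff m F, hFA m⟩
      with hFAdef
    have hmapF : map A.subtype FA = F := by
      rw [hFAdef, map_sum]
      conv_rhs => rw [← support_sum_monomial_coeff F]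
      apply Finset.sum_congr rfl
      intro m _
      rw [map_monomial]
      rfl
    have hcoeff : ∀ m, coeff m FA = ⟨coeff m F, hFA m⟩ := by
      intro m
      apply Subtype.ext
      have := congrArg (coeff m) hmapF
      rw [coeff_map] at this
      exact this
    have hdegm : ∀ m ∈ F.support, m.degree = d := by
      intro m hm
      have := hFh (mem_support_iff.1 hm)
      rwa [Finsupp.degree_eq_weight_one]
    have hFAh : FA.IsHomogeneous d := by
      rw [hFAdef]
      apply IsHomogeneous.sum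
      intro m hm
      exact isHomogeneous_monomial _ (hdegm m hm)
    obtain ⟨m₀, hm₀⟩ := support_nonempty.2 hF0
    have hF'0 : map φ FA ≠ 0 := by
      intro h0
      have h1 := congrArg (coeff m₀) h0
      rw [coeff_map, hcoeff, coeff_zero] at h1
      refine hDφ (coeff m₀ F) ?_ (mem_support_iff.1 hm₀) (hFA m₀) h1
      rw [Finset.mem_union, Finset.mem_union]
      right
      left
      exact Finset.mem_image_of_mem _ hm₀
    let ψ : (Fin (n + 1) → K) → (Fin (n + 1) → k') := fun v =>
      if h : ∀ i, v i ∈ A then fun i => φ ⟨v i, h i⟩ else 0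
    have hψ : ∀ v, ∀ hv : v ∈ Z, ψ v = fun i => φ ⟨v i, hvA v hv i⟩ := by
      intro v hv
      exact dif_pos (hvA v hv)
    -- the weights in positive characteristic
    let τ' : (Fin (n + 1) → k') → ℕ := fun u =>
      (hZf.toFinset.filter (fun v => ψ v = u)).sup τ
    have hτ' : ∀ v ∈ Z, τ v ≤ τ' (ψ v) := by
      intro v hv
      exact Finset.le_sup (f := τ) (Finset.mem_filter.2 ⟨hZf.mem_toFinset.2 hv, rfl⟩)
    obtain ⟨z, hz, hwz⟩ := hw
    refine charP k' p n h a r d (ψ '' Z) τ' (map φ FA) hh (hZf.image _)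
      ⟨ψ z, ⟨z, hz, rfl⟩, hwz.trans (hτ' z hz)⟩ ?_ ?_ hF'0
      (hFAh.map φ) ?_
    · rintro w ⟨v, hv, rfl⟩ h0
      rw [hψ v hv] at h0
      obtain ⟨i, hi⟩ : ∃ i, v i ≠ 0 := by
        by_contra hcon
        push Not at hcon
        exact hZ0 v hv (funext hcon)
      refine hDφ (v i) ?_ hi (hvA v hv i) (congrFun h0 i)
      rw [Finset.mem_union]
      left
      rw [Finset.mem_biUnion]
      exact ⟨v, hZf.mem_toFinset.2 hv, Finset.mem_image_of_mem _ (Finset.mem_univ _)⟩
    · apply hlowT
      intro v hv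
      have hv' := hZf.mem_toFinset.1 hv
      refine ⟨hvA v hv', ⟨v, hv', hψ v hv'⟩, ?_⟩
      have := hτ' v hv'
      rw [hψ v hv'] at this
      exact this
    · rintro u ⟨v, hv, rfl⟩ hτu
      have hne : (hZf.toFinset.filter (fun x => ψ x = ψ v)).Nonempty :=
        ⟨v, Finset.mem_filter.2 ⟨hZf.mem_toFinset.2 hv, rfl⟩⟩
      obtain ⟨x, hx, hxw⟩ := Finset.exists_mem_eq_sup _ hne τ
      rw [Finset.mem_filter] at hx
      have hxZ := hZf.mem_toFinset.1 hx.1
      have e1 : τ' (ψ v) = τ x := hxw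
      rw [e1] at hτu
      rw [e1, ← hx.2, hψ x hxZ]
      obtain ⟨h1, h2, h3⟩ := hsfc x hxZ hτu
      obtain ⟨sA, hsA'⟩ := exists_lift A (s x) (hsA x hxZ)
      choose fA hfA' using fun i => exists_lift A (f x i) (hfA x hxZ i)
      choose cA hcA' using fun j => exists_lift A (c x j) (hcA x hxZ j)
      have hinj : Function.Injective (map A.subtype : MvPolynomial (Fin (n + 1)) A →+* _) :=
        map_injective _ Subtype.val_injective
      have hid : sA * FA = ∑ j, cA j * ∏ i, fA (j i) := by
        apply hinj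
        rw [map_mul, hsA', hmapF, h3, map_sum]
        refine Finset.sum_congr rfl fun j _ => ?_
        rw [map_mul, map_prod, hcA']
        simp only [hfA']
      have hev : ∀ G : MvPolynomial (Fin (n + 1)) A,
          (eval (fun i => (⟨x i, hvA x hxZ i⟩ : A)) G : K) = eval x (map A.subtype G) := by
        intro G
        exact (eval_map' A.subtype (fun i => (⟨x i, hvA x hxZ i⟩ : A)) G).symm
      refine ⟨map φ sA, fun i => map φ (fA i), fun j => map φ (cA j), ?_, ?_, ?_⟩
      · rw [eval_map' φ (fun i => (⟨x i, hvA x hxZ i⟩ : A)) sA]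
        have h4 : (eval (fun i => (⟨x i, hvA x hxZ i⟩ : A)) sA : K) = eval x (s x) := by
          rw [hev, hsA']
        have h5 : eval (fun i => (⟨x i, hvA x hxZ i⟩ : A)) sA =
            ⟨eval x (s x), by rw [← h4]; exact Subtype.mem _⟩ := Subtype.ext h4
        rw [h5]
        refine hDφ (eval x (s x)) ?_ h1 _
        rw [Finset.mem_union, Finset.mem_union]
        right
        right
        exact Finset.mem_image_of_mem _ hx.1
      · intro i
        rw [eval_map' φ (fun i => (⟨x i, hvA x hxZ i⟩ : A)) (fA i)]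
        have h4 : (eval (fun i => (⟨x i, hvA x hxZ i⟩ : A)) (fA i) : K) = 0 := by
          rw [hev, hfA', h2]
        have h5 : eval (fun i => (⟨x i, hvA x hxZ i⟩ : A)) (fA i) = 0 := Subtype.ext h4
        rw [h5, map_zero]
      · rw [← map_mul, hid, map_sum]
        refine Finset.sum_congr rfl fun j _ => ?_
        rw [map_mul, map_prod]

end Pool.Agent.H35.DM
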